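import Mathlib

/-! Uniform averages over finite types. -/

namespace H739IC

open Finset

/-- Uniform average. -/
noncomputable def E {T : Type} [Fintype T] (f : T → ℝ) : ℝ := (∑ t, f t) / Fintype.card T

section
variable {T S ι : Type} [Fintype T] [Fintype S] [Fintype ι]

lemma E_add (f g : T → ℝ) : E (fun t => f t + g t) = E f + E g := by
  simp [E, sum_add_distrib, add_div]

lemma E_sub (f g : T → ℝ) : E (fun t => f t - g t) = E f - E g := by
  simp [E, sum_sub_distrib, sub_div]

lemma E_mul_left (c : ℝ) (f : T → ℝ) : E (fun t => c * f t) = c * E f := by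
  simp [E, ← mul_sum, mul_div_assoc]

lemma E_mul_right (c : ℝ) (f : T → ℝ) : E (fun t => f t * c) = E f * c := by
  simp only [mul_comm _ c, E_mul_left]

lemma E_div (c : ℝ) (f : T → ℝ) : E (fun t => f t / c) = E f / c := by
  simp only [div_eq_mul_inv, E_mul_right]

lemma E_mono {f g : T → ℝ} (h : ∀ t, f t ≤ g t) : E f ≤ E g :=
  div_le_div_of_nonneg_right (sum_le_sum fun t _ => h t) (Nat.cast_nonneg _)

lemma E_nonneg {f : T → ℝ} (h : ∀ t, 0 ≤ f t) : 0 ≤ E f :=
  div_nonneg (sum_nonneg fun t _ => h t) (Nat.cast_nonneg _)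

lemma E_const [Nonempty T] (c : ℝ) : E (fun _ : T => c) = c := by
  simp [E]

lemma E_le [Nonempty T] {f : T → ℝ} {c : ℝ} (h : ∀ t, f t ≤ c) : E f ≤ c := by
  simpa [E_const] using E_mono (g := fun _ => c) h

lemma E_zero : E (fun _ : T => (0 : ℝ)) = 0 := by simp [E]

lemma E_sum (f : ι → T → ℝ) : E (fun t => ∑ i, f i t) = ∑ i, E (f i) := by
  simp only [E]; rw [sum_comm, sum_div]

lemma E_comm (f : T → S → ℝ) : E (fun t => E (fun s => f t s)) = E (fun s => E (fun t => f t s)) := by
  simp only [E, ← sum_div]; rw [sum_comm]; ring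

lemma E_prod (f : T × S → ℝ) : E f = E (fun t => E (fun s => f (t, s))) := by
  simp only [E, ← sum_div, Fintype.sum_prod_type, Fintype.card_prod, Nat.cast_mul]
  rw [div_div, mul_comm]

lemma E_bool (f : Bool → ℝ) : E f = (f false + f true) / 2 := by
  simp [E, add_comm]

lemma E_not (f : Bool → ℝ) : E (fun t => f (!t)) = E f := by
  simp [E_bool, add_comm]

lemma E_pos {f : T → ℝ} (h : ∀ t, 0 ≤ f t) {t : T} (ht : 0 < f t) : 0 < E f := by
  have : Nonempty T := ⟨t⟩
  have : (0 : ℝ) < Fintype.card T := by exact_mod_cast Fintype.card_pos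
  exact div_pos (sum_pos' (fun t _ => h t) ⟨t, mem_univ _, ht⟩) this

lemma E_ite [DecidableEq T] (c : T) (f : T → ℝ) :
    E (fun t => if t = c then f t else 0) = f c / Fintype.card T := by
  simp [E]

lemma E_ite' [DecidableEq T] (c : T) (f : T → ℝ) :
    E (fun t => if c = t then f t else 0) = f c / Fintype.card T := by
  simp [E]

lemma E_sq_le [Nonempty T] (f : T → ℝ) : (E f) ^ 2 ≤ E (fun t => f t ^ 2) := by
  have h := E_nonneg (f := fun t => (f t - E f) ^ 2) (fun t => sq_nonneg _)
  have : E (fun t => (f t - E f) ^ 2) = E (fun t => f t ^ 2) - (E f) ^ 2 := by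
    have : (fun t => (f t - E f) ^ 2) = fun t => (f t ^ 2 - (2 * E f) * f t) + (E f) ^ 2 := by
      funext t; ring
    rw [this, E_add, E_sub, E_mul_left, E_const]; ring
  linarith

end

section
variable {A R : Type} [Fintype A] [Fintype R] [DecidableEq R] [Nonempty A]

/-- Resampling one coordinate. -/
lemma E_update (r : R) (f : (R → A) → ℝ) :
    E f = E (fun h => E (fun a => f (Function.update h r a))) := by
  have hA : (Fintype.card A : ℝ) ≠ 0 := by exact_mod_cast Fintype.card_ne_zero
  let e : (R → A) × A ≃ (R → A) × A :=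
    { toFun := fun p => (Function.update p.1 r p.2, p.1 r)
      invFun := fun p => (Function.update p.1 r p.2, p.1 r)
      left_inv := by rintro ⟨h, a⟩; simp
      right_inv := by rintro ⟨h, a⟩; simp }
  have h1 : ∑ p : (R → A) × A, f (e p).1 = ∑ p : (R → A) × A, f p.1 :=
    Equiv.sum_comp e (fun p => f p.1)
  simp only [Fintype.sum_prod_type, e, Equiv.coe_fn_mk, sum_const, card_univ, nsmul_eq_mul] at h1
  simp only [E, ← sum_div, h1, ← mul_sum]
  field_simp

lemma E_coord (r : R) (u : A → ℝ) : E (fun h : R → A => u (h r)) = E u := by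
  rw [E_update r]
  simp only [Function.update_self]
  exact E_const _

/-- Conditioning on one coordinate. -/
lemma E_cond [DecidableEq A] (r : R) (c : A) (G : (R → A) → ℝ) :
    E (fun h => if h r = c then G h else 0) =
      E (fun h => G (Function.update h r c)) / Fintype.card A := by
  rw [E_update r]
  simp only [Function.update_self]
  rw [← E_div]
  congr 1; funext h
  exact E_ite c (fun a => G (Function.update h r a))

/-- A centred function of a fresh coordinate averages out. -/
lemma E_fresh (r : R) (u : A → ℝ) (G : (R → A) → ℝ) (hG : ∀ h a, G (Function.update h r a) = G h) :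
    E (fun h => G h * u (h r)) = E G * E u := by
  rw [E_update r]
  simp only [Function.update_self, hG, E_mul_left, E_mul_right]

/-- Second moment of an empirical mean, on the event `h r = c`. -/
lemma E_second [DecidableEq A] [Nonempty R] (r : R) (c : A) (u : A → ℝ) (B : ℝ)
    (hu0 : E u = 0) (hB : ∀ a, |u a| ≤ B) :
    E (fun h : R → A => if h r = c then (E fun r' => u (h r')) ^ 2 else 0) ≤
      B ^ 2 / Fintype.card R / Fintype.card A := by
  have hR : (0 : ℝ) < Fintype.card R := by exact_mod_cast Fintype.card_pos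
  have hA : (0 : ℝ) < Fintype.card A := by exact_mod_cast Fintype.card_pos
  have key : ∀ r1 r2 : R, E (fun h : R → A => if h r = c then u (h r1) * u (h r2) else 0) ≤
      if r1 = r2 then B ^ 2 / Fintype.card A else 0 := by
    intro r1 r2
    by_cases h12 : r1 = r2
    · subst h12
      simp only [if_true]
      rw [E_cond r c (fun h => u (h r1) * u (h r1))]
      apply div_le_div_of_nonneg_right _ hA.le
      apply E_le
      intro h
      have := hB (Function.update h r c r1)
      have h2 := abs_nonneg (u (Function.update h r c r1))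
      nlinarith [abs_mul_abs_self (u (Function.update h r c r1))]
    · simp only [h12, if_false]
      by_cases h2 : r2 = r
      · have h1 : r1 ≠ r := fun h => h12 (h.trans h2.symm)
        have := E_fresh r1 u (fun h => if h r = c then u (h r2) else 0) (by
          intro h a
          rw [Function.update_of_ne h1.symm, Function.update_of_ne (Ne.symm h12)])
        rw [hu0, mul_zero] at this
        refine le_of_eq (Eq.trans ?_ this)
        congr 1; funext h; split_ifs <;> ring
      · have := E_fresh r2 u (fun h => if h r = c then u (h r1) else 0) (by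
          intro h a
          rw [Function.update_of_ne (Ne.symm h2), Function.update_of_ne h12])
        rw [hu0, mul_zero] at this
        refine le_of_eq (Eq.trans ?_ this)
        congr 1; funext h; split_ifs <;> ring
  have e1 : (fun h : R → A => if h r = c then (E fun r' => u (h r')) ^ 2 else 0) =
      fun h => E fun r1 => E fun r2 => if h r = c then u (h r1) * u (h r2) else 0 := by
    funext h
    split_ifs
    · simp only [E_mul_left, E_mul_right]; ring
    · simp only [E_zero]
  rw [e1, E_comm]
  apply E_le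
  intro r1
  rw [E_comm]
  refine (E_mono (key r1)).trans (le_of_eq ?_)
  rw [E_ite' r1 (fun _ => B ^ 2 / Fintype.card A)]
  ring

/-- Mixing: replacing an independent element by an element of the list. -/
lemma mixing [DecidableEq A] [Nonempty R] (r : R) (c : A) (f : A → ℝ) (G : (R → A) → ℝ)
    (F Γ σ : ℝ) (hσ : 0 < σ) (hs : σ ^ 2 ≤ Fintype.card R) (hf0 : ∀ a, 0 ≤ f a) (hf : ∀ a, f a ≤ F)
    (hG0 : ∀ h, 0 ≤ G h) (hG : ∀ h, G h ≤ Γ) :
    E (fun h : R → A => if h r = c then G h * E f else 0) ≤
      E (fun h : R → A => if h r = c then G h * E (fun r' => f (h r')) else 0) +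
        Γ * F / σ / Fintype.card A := by
  have hR : (0 : ℝ) < Fintype.card R := by exact_mod_cast Fintype.card_pos
  have hA : (0 : ℝ) < Fintype.card A := by exact_mod_cast Fintype.card_pos
  obtain ⟨a0⟩ := ‹Nonempty A›
  have hF : 0 ≤ F := (hf0 a0).trans (hf a0)
  have hΓ : 0 ≤ Γ := (hG0 fun _ => a0).trans (hG _)
  rcases hF.eq_or_lt with hF0 | hFpos
  · have : ∀ a, f a = 0 := fun a => le_antisymm (hF0 ▸ hf a) (hf0 a)
    have hf' : f = fun _ => 0 := funext this
    subst hf'
    simp only [E_zero, ← hF0]
    simp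
  set u : A → ℝ := fun a => f a - E f with hu
  have hu0 : E u = 0 := by simp only [hu, E_sub, E_const]; ring
  have hEf0 : 0 ≤ E f := E_nonneg hf0
  have hEf : E f ≤ F := E_le hf
  have hB : ∀ a, |u a| ≤ F := fun a => by
    rw [abs_le]; constructor <;> simp only [hu] <;> linarith [hf0 a, hf a]
  have h2 := E_second r c u F hu0 hB
  set η := F / σ with hη
  have hηpos : 0 < η := div_pos hFpos hσ
  have pt : ∀ h : R → A, (if h r = c then G h * E f else 0) ≤
      (if h r = c then G h * E (fun r' => f (h r')) else 0) +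
        ((Γ / (2 * η)) * (if h r = c then (E fun r' => u (h r')) ^ 2 else 0) +
          (if h r = c then Γ * η / 2 else 0)) := by
    intro h
    split_ifs
    · have e : E (fun r' => u (h r')) = E (fun r' => f (h r')) - E f := by
        simp only [hu, E_sub, E_const]
      rw [e]
      set Δ := E (fun r' => f (h r')) - E f with hΔ
      have e2 : E (fun r' => f (h r')) = Δ + E f := by rw [hΔ]; ring
      rw [e2]
      have h3 : -Δ ≤ Δ ^ 2 / (2 * η) + η / 2 := by
        have : Δ ^ 2 / (2 * η) + η / 2 + Δ = (Δ + η) ^ 2 / (2 * η) := by field_simp; ring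
        have h4 : 0 ≤ (Δ + η) ^ 2 / (2 * η) := by positivity
        linarith
      have h5 : 0 ≤ Δ ^ 2 / (2 * η) + η / 2 := by positivity
      have h6 : G h * (-Δ) ≤ G h * (Δ ^ 2 / (2 * η) + η / 2) := mul_le_mul_of_nonneg_left h3 (hG0 h)
      have h7 : G h * (Δ ^ 2 / (2 * η) + η / 2) ≤ Γ * (Δ ^ 2 / (2 * η) + η / 2) :=
        mul_le_mul_of_nonneg_right (hG h) h5
      have h8 : Γ * (Δ ^ 2 / (2 * η) + η / 2) = Γ / (2 * η) * Δ ^ 2 + Γ * η / 2 := by ring
      nlinarith
    · simp
  refine (E_mono pt).trans ?_
  rw [E_add, E_add, E_mul_left, E_cond r c (fun _ => Γ * η / 2), E_const]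
  have h9 : F ^ 2 / Fintype.card R ≤ η ^ 2 := by
    rw [hη, div_pow]
    exact div_le_div_of_nonneg_left (by positivity) (by positivity) hs
  have h10 : Γ / (2 * η) * E (fun h : R → A => if h r = c then (E fun r' => u (h r')) ^ 2 else 0) ≤
      Γ / (2 * η) * (η ^ 2 / Fintype.card A) :=
    mul_le_mul_of_nonneg_left (h2.trans (div_le_div_of_nonneg_right h9 hA.le)) (by positivity)
  have h11 : Γ / (2 * η) * (η ^ 2 / Fintype.card A) + Γ * η / 2 / Fintype.card A =
      Γ * F / σ / Fintype.card A := by
    rw [hη]; field_simp; ring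
  linarith

end

end H739IC
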