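import Pool.Agent.H739Z.IC.Avg

/-! The example and the certificate element of a monochromatic rectangle. -/

namespace H739IC

open Finset

open Classical in
/-- Indicator. -/
noncomputable def ind (P : Prop) : ℝ := if P then 1 else 0

lemma ind_pos {P : Prop} (h : P) : ind P = 1 := by simp [ind, h]
lemma ind_neg {P : Prop} (h : ¬P) : ind P = 0 := by simp [ind, h]
lemma ind_nonneg (P : Prop) : 0 ≤ ind P := by unfold ind; split_ifs <;> norm_num
lemma ind_le_one (P : Prop) : ind P ≤ 1 := by unfold ind; split_ifs <;> norm_num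
lemma ind_eq_ite (P : Prop) [Decidable P] : ind P = if P then 1 else 0 := by
  unfold ind; congr
lemma ind_not (P : Prop) : ind (¬P) = 1 - ind P := by
  by_cases h : P <;> simp [ind, h]
lemma ind_and (P Q : Prop) : ind (P ∧ Q) = ind P * ind Q := by
  by_cases h : P <;> by_cases h' : Q <;> simp [ind, h, h']
lemma ind_mono {P Q : Prop} (h : P → Q) : ind P ≤ ind Q := by
  by_cases hp : P
  · rw [ind_pos hp, ind_pos (h hp)]
  · rw [ind_neg hp]; exact ind_nonneg _

/-- Alice's pair with `i` in position `t` and `j` in the other one. -/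
def gg {A : Type} (t : Bool) (i j : A) : Bool → A := fun b => if b = t then i else j

lemma gg_not {A : Type} (t : Bool) (i j : A) : gg (!t) i j = gg t j i := by
  funext b; cases b <;> cases t <;> simp [gg]

/-- Alice's input. -/
def xx {A : Type} (φ t : Bool) (i j : A) : (Bool → A) × Option Bool :=
  (gg t i j, if φ then some t else none)

lemma xx_not {A : Type} (t : Bool) (i j : A) : xx false (!t) i j = xx false t j i := by
  simp [xx, gg_not]

/-- The function: does Alice's pair meet Bob's list? -/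
def FF {A R : Type} (x : (Bool → A) × Option Bool) (y : Bool × (R → A)) : Prop :=
  ∃ t r, y.2 r = x.1 t

section
variable {A R : Type} [Fintype A] [Fintype R] [DecidableEq R] [DecidableEq A] [Nonempty A]
  [Nonempty R]

omit [Nonempty R] [DecidableEq R] [Nonempty A] in
lemma E_mem_left (k : R → A) :
    E (fun a : A => ind (∃ r, k r = a)) ≤ Fintype.card R / Fintype.card A := by
  have : ∀ a : A, ind (∃ r, k r = a) ≤ ∑ r, if k r = a then (1 : ℝ) else 0 := by
    intro a
    by_cases h : ∃ r, k r = a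
    · rw [ind_pos h]
      obtain ⟨r, hr⟩ := h
      have := single_le_sum (f := fun r => if k r = a then (1 : ℝ) else 0) (s := univ)
        (fun r _ => by split_ifs <;> norm_num) (mem_univ r)
      simpa [hr] using this
    · rw [ind_neg h]; exact sum_nonneg fun r _ => by split_ifs <;> norm_num
  refine (E_mono this).trans (le_of_eq ?_)
  rw [E_sum]
  simp only [E_ite' _ (fun _ => (1 : ℝ))]
  simp [div_eq_mul_inv]

omit [Nonempty R] in
lemma E_mem_right (a : A) :
    E (fun h : R → A => ind (∃ r, h r = a)) ≤ Fintype.card R / Fintype.card A := by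
  have : ∀ h : R → A, ind (∃ r, h r = a) ≤ ∑ r, if h r = a then (1 : ℝ) else 0 := by
    intro k
    by_cases h : ∃ r, k r = a
    · rw [ind_pos h]
      obtain ⟨r, hr⟩ := h
      have := single_le_sum (f := fun r => if k r = a then (1 : ℝ) else 0) (s := univ)
        (fun r _ => by split_ifs <;> norm_num) (mem_univ r)
      simpa [hr] using this
    · rw [ind_neg h]; exact sum_nonneg fun r _ => by split_ifs <;> norm_num
  refine (E_mono this).trans (le_of_eq ?_)
  rw [E_sum]
  simp only [E_cond _ a (fun _ => (1 : ℝ)), E_const]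
  simp [div_eq_mul_inv]

omit [Nonempty R] in
lemma E_two (r : R) (c : A) (u : A → ℝ) (hu : ∀ a, 0 ≤ u a) :
    E (fun h : R → A => u (h r) * ind (∃ r', r' ≠ r ∧ h r' = c)) ≤
      E u * (Fintype.card R / Fintype.card A) := by
  have h1 := E_fresh r u (fun h : R → A => ind (∃ r', r' ≠ r ∧ h r' = c)) (by
    intro h a
    congr 1
    apply propext
    constructor
    · rintro ⟨r', h1, h2⟩; exact ⟨r', h1, by rwa [Function.update_of_ne h1] at h2⟩
    · rintro ⟨r', h1, h2⟩; exact ⟨r', h1, by rwa [Function.update_of_ne h1]⟩)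
  simp only [mul_comm (u _)]
  rw [h1, mul_comm]
  apply mul_le_mul_of_nonneg_left _ (E_nonneg hu)
  exact (E_mono fun h => ind_mono fun ⟨r', _, h2⟩ => ⟨r', h2⟩).trans (E_mem_right c)

omit [Nonempty R] in
/-- In a rectangle of intersecting pairs all but a small fraction of the planted pairs meet in one
fixed element. -/
lemma exists_cert (SA : (Bool → A) → Prop) (SB : (R → A) → Prop)
    (hint : ∀ g h, SA g → SB h → ∃ t r, h r = g t) :
    ∃ c : A, ∀ t r, E (fun j : A => E fun h : R → A =>
      ind (h r ≠ c ∧ SA (gg t (h r) j) ∧ SB h)) ≤ 4 * (Fintype.card R / Fintype.card A) ^ 2 := by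
  classical
  by_cases hB : ∃ h0, SB h0
  swap
  · refine ⟨Classical.arbitrary A, fun t r => ?_⟩
    have : ∀ (j : A) (h : R → A), ind (h r ≠ Classical.arbitrary A ∧ SA (gg t (h r) j) ∧ SB h) = 0 :=
      fun j h => ind_neg fun h' => hB ⟨h, h'.2.2⟩
    simp only [this, E_zero]
    positivity
  obtain ⟨h0, hh0⟩ := hB
  let J : A → Prop := fun a => ∀ h, SB h → ∃ r, h r = a
  have hk : ∀ a, ∃ k, SB k ∧ (¬J a → ¬∃ r, k r = a) := by
    intro a
    by_cases hJ : J a
    · exact ⟨h0, hh0, fun h => absurd hJ h⟩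
    · simp only [J, not_forall] at hJ
      obtain ⟨k, hk1, hk2⟩ := hJ
      exact ⟨k, hk1, fun _ => hk2⟩
  choose k hk1 hk2 using hk
  have hc : ∃ c, (∃ a, J a) → J c := by
    by_cases hJ : ∃ a, J a
    · obtain ⟨a, ha⟩ := hJ; exact ⟨a, fun _ => ha⟩
    · exact ⟨Classical.arbitrary A, fun h => absurd h hJ⟩
  obtain ⟨c, hc⟩ := hc
  refine ⟨c, fun t r => ?_⟩
  set v : ℝ := Fintype.card R / Fintype.card A with hv
  have hv0 : 0 ≤ v := by positivity
  have pt : ∀ (j : A) (h : R → A), ind (h r ≠ c ∧ SA (gg t (h r) j) ∧ SB h) ≤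
      (ind (∃ r', h0 r' = h r) * ind (∃ r', r' ≠ r ∧ h r' = c) +
      ind (∃ r', h0 r' = h r) * ind (∃ r', k (h r) r' = j)) +
      (ind (∃ r', h0 r' = j) * ind (∃ r', k j r' = h r) +
      ind (∃ r', h0 r' = j) * ind (∃ r', h r' = j)) := by
    intro j h
    have n1 := mul_nonneg (ind_nonneg (∃ r', h0 r' = h r)) (ind_nonneg (∃ r', r' ≠ r ∧ h r' = c))
    have n2 := mul_nonneg (ind_nonneg (∃ r', h0 r' = h r)) (ind_nonneg (∃ r', k (h r) r' = j))
    have n3 := mul_nonneg (ind_nonneg (∃ r', h0 r' = j)) (ind_nonneg (∃ r', k j r' = h r))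
    have n4 := mul_nonneg (ind_nonneg (∃ r', h0 r' = j)) (ind_nonneg (∃ r', h r' = j))
    by_cases hP : h r ≠ c ∧ SA (gg t (h r) j) ∧ SB h
    swap
    · rw [ind_neg hP]; linarith
    rw [ind_pos hP]
    obtain ⟨hne, hA, hBh⟩ := hP
    have hit : ∀ h', SB h' → (∃ r', h' r' = h r) ∨ ∃ r', h' r' = j := by
      intro h' hh'
      obtain ⟨t', r', e⟩ := hint _ _ hA hh'
      by_cases ht : t' = t
      · left; exact ⟨r', by simpa [gg, ht] using e⟩
      · right; exact ⟨r', by simpa [gg, ht] using e⟩
    by_cases hJi : J (h r)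
    · have hJc := hc ⟨_, hJi⟩
      obtain ⟨r', hr'⟩ := hJc h hBh
      have : r' ≠ r := fun e => hne (e ▸ hr')
      rw [ind_pos (hJi h0 hh0), ind_pos (⟨r', this, hr'⟩ : ∃ r', r' ≠ r ∧ h r' = c)] at *
      linarith
    · have hj : ∃ r', k (h r) r' = j := (hit _ (hk1 _)).resolve_left (hk2 _ hJi)
      rcases hit h0 hh0 with h1 | h1
      · rw [ind_pos h1, ind_pos hj] at *
        linarith
      · by_cases hJj : J j
        · rw [ind_pos h1, ind_pos (hJj h hBh)] at *
          linarith
        · have hi : ∃ r', k j r' = h r := (hit _ (hk1 _)).resolve_right (hk2 _ hJj)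
          rw [ind_pos h1, ind_pos hi] at *
          linarith
  refine (E_mono fun j => E_mono (pt j)).trans ?_
  simp only [E_add]
  have t1 : E (fun _ : A => E fun h : R → A =>
      ind (∃ r', h0 r' = h r) * ind (∃ r', r' ≠ r ∧ h r' = c)) ≤ v ^ 2 := by
    rw [E_const]
    refine (E_two r c (fun a => ind (∃ r', h0 r' = a)) fun a => ind_nonneg _).trans ?_
    rw [sq]
    exact mul_le_mul_of_nonneg_right (E_mem_left h0) hv0
  have t2 : E (fun j : A => E fun h : R → A =>
      ind (∃ r', h0 r' = h r) * ind (∃ r', k (h r) r' = j)) ≤ v ^ 2 := by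
    rw [E_comm]
    simp only [E_mul_left]
    refine (E_mono (g := fun h : R → A => ind (∃ r', h0 r' = h r) * v) fun h =>
      mul_le_mul_of_nonneg_left (E_mem_left _) (ind_nonneg _)).trans ?_
    rw [E_mul_right, E_coord r (fun a => ind (∃ r', h0 r' = a)), sq]
    exact mul_le_mul_of_nonneg_right (E_mem_left h0) hv0
  have t3 : E (fun j : A => E fun h : R → A =>
      ind (∃ r', h0 r' = j) * ind (∃ r', k j r' = h r)) ≤ v ^ 2 := by
    simp only [E_mul_left]
    refine (E_mono (g := fun j : A => ind (∃ r', h0 r' = j) * v) fun j =>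
      mul_le_mul_of_nonneg_left ?_ (ind_nonneg _)).trans ?_
    · rw [E_coord r (fun a => ind (∃ r', k j r' = a))]; exact E_mem_left _
    rw [E_mul_right, sq]
    exact mul_le_mul_of_nonneg_right (E_mem_left h0) hv0
  have t4 : E (fun j : A => E fun h : R → A =>
      ind (∃ r', h0 r' = j) * ind (∃ r', h r' = j)) ≤ v ^ 2 := by
    simp only [E_mul_left]
    refine (E_mono (g := fun j : A => ind (∃ r', h0 r' = j) * v) fun j =>
      mul_le_mul_of_nonneg_left (E_mem_right j) (ind_nonneg _)).trans ?_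
    rw [E_mul_right, sq]
    exact mul_le_mul_of_nonneg_right (E_mem_left h0) hv0
  linarith

end

end H739IC
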