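import Mathlib

/-! Two-party protocols, expected communication and external information cost. -/

namespace H739IC

/-- A finite two-party protocol tree. Alice holds an input in `X`, Bob an input in `Y`, leaves
carry the output. At `alice p l r` Alice sends one bit, going to `l` with probability `p x`
(private coins); at `bob p l r` Bob does the same; `coin p l r` is a public coin of bias `p`. -/
inductive Prot (X Y O : Type) : Type
  | leaf (o : O) : Prot X Y O
  | alice (p : X → unitInterval) (l r : Prot X Y O) : Prot X Y O
  | bob (p : Y → unitInterval) (l r : Prot X Y O) : Prot X Y O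
  | coin (p : unitInterval) (l r : Prot X Y O) : Prot X Y O

/-- One transcript (root-to-leaf path, public coins included): its probability on each input,
the number of bits the players send along it, and the output at its leaf. -/
structure Path (X Y O : Type) : Type where
  pr : X → Y → ℝ
  bits : ℕ
  out : O

/-- Extend a path by one step taken with probability `q x y` and costing `k` bits. -/
def Path.step {X Y O : Type} (q : X → Y → ℝ) (k : ℕ) (b : Path X Y O) : Path X Y O :=
  ⟨fun x y => q x y * b.pr x y, b.bits + k, b.out⟩

/-- The list of all transcripts of a protocol, one entry for each leaf. -/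
def Prot.paths {X Y O : Type} : Prot X Y O → List (Path X Y O)
  | .leaf o => [⟨fun _ _ => 1, 0, o⟩]
  | .alice p l r => l.paths.map (Path.step (fun x _ => (p x : ℝ)) 1) ++
      r.paths.map (Path.step (fun x _ => 1 - (p x : ℝ)) 1)
  | .bob p l r => l.paths.map (Path.step (fun _ y => (p y : ℝ)) 1) ++
      r.paths.map (Path.step (fun _ y => 1 - (p y : ℝ)) 1)
  | .coin p l r => l.paths.map (Path.step (fun _ _ => (p : ℝ)) 0) ++
      r.paths.map (Path.step (fun _ _ => 1 - (p : ℝ)) 0)

/-- Zero error: on every input (in the support of the distribution or not), every transcript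
that can occur outputs `F x y`. -/
def ZeroError {X Y O : Type} (F : X → Y → O) (P : Prot X Y O) : Prop :=
  ∀ b ∈ P.paths, ∀ x y, b.pr x y ≠ 0 → b.out = F x y

/-- Expected number of bits sent, inputs drawn from `μ`. -/
noncomputable def expComm {X Y O : Type} [Fintype X] [Fintype Y] (μ : X → Y → ℝ)
    (P : Prot X Y O) : ℝ :=
  (P.paths.map fun b => ∑ x, ∑ y, μ x y * b.pr x y * (b.bits : ℝ)).sum

/-- Shannon mutual information in bits between the transcript and the input pair drawn from `μ`:
the sum of `Pr[x,y,π] * log₂ (Pr[π | x,y] / Pr[π])`. -/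
noncomputable def extInfo {X Y O : Type} [Fintype X] [Fintype Y] (μ : X → Y → ℝ)
    (P : Prot X Y O) : ℝ :=
  (P.paths.map fun b => ∑ x, ∑ y, μ x y * b.pr x y *
    Real.logb 2 (b.pr x y / ∑ x', ∑ y', μ x' y' * b.pr x' y')).sum

/-- Zero-error external information complexity. -/
noncomputable def ICext {X Y O : Type} [Fintype X] [Fintype Y] (F : X → Y → O)
    (μ : X → Y → ℝ) : ℝ :=
  sInf {c | ∃ P : Prot X Y O, ZeroError F P ∧ extInfo μ P = c}

/-- Zero-error expected communication complexity. -/
noncomputable def avgCC {X Y O : Type} [Fintype X] [Fintype Y] (F : X → Y → O)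
    (μ : X → Y → ℝ) : ℝ :=
  sInf {c | ∃ P : Prot X Y O, ZeroError F P ∧ expComm μ P = c}

/-- The task `F^n`. -/
def powFun {X Y O : Type} (F : X → Y → O) (n : ℕ) (x : Fin n → X) (y : Fin n → Y) : Fin n → O :=
  fun i => F (x i) (y i)

/-- The product distribution `μ^n`. -/
def powDist {X Y : Type} (μ : X → Y → ℝ) (n : ℕ) (x : Fin n → X) (y : Fin n → Y) : ℝ :=
  ∏ i, μ (x i) (y i)

end H739IC
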