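import Pool.Agent.H739Z.IC.Mix

/-! The information lower bound for weighted monochromatic rectangles. -/

namespace H739IC

open Finset

lemma gibbs_pt {p P Q : ℝ} (hp : 0 ≤ p) (hP : p ≠ 0 → 0 < P) (hQ : 0 < Q) :
    p * Real.log Q + p - P * (Q * ind (p ≠ 0)) ≤ p * Real.log (p / P) := by
  rcases hp.eq_or_lt with h | h
  · subst h; simp [ind]
  · have hP' := hP h.ne'
    rw [ind_pos h.ne']
    have h1 := Real.log_le_sub_one_of_pos (x := Q * P / p) (by positivity)
    rw [Real.log_div (by positivity) h.ne', Real.log_mul hQ.ne' hP'.ne'] at h1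
    rw [Real.log_div h.ne' hP'.ne']
    have h2 := mul_le_mul_of_nonneg_left h1 h.le
    have h3 : p * (Q * P / p - 1) = Q * P - p := by field_simp
    nlinarith

section
variable {A R : Type} [Fintype A] [Fintype R] [DecidableEq R] [DecidableEq A] [Nonempty A]
  [Nonempty R]

/-- Average over the planted distribution. -/
noncomputable def E5 (f : Bool → Bool → R → A → (R → A) → ℝ) : ℝ :=
  E fun φ => E fun t => E3 (f φ t)

omit [DecidableEq A] [Nonempty A] [Nonempty R] in
lemma E5_add (f g : Bool → Bool → R → A → (R → A) → ℝ) :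
    E5 (fun φ t r j h => f φ t r j h + g φ t r j h) = E5 f + E5 g := by
  simp only [E5, E3_add, E_add]

omit [DecidableEq A] [Nonempty A] [Nonempty R] in
lemma E5_sub (f g : Bool → Bool → R → A → (R → A) → ℝ) :
    E5 (fun φ t r j h => f φ t r j h - g φ t r j h) = E5 f - E5 g := by
  simp only [E5, E3_sub, E_sub]

omit [DecidableEq A] [Nonempty A] [Nonempty R] in
lemma E5_mul_left (c : ℝ) (f : Bool → Bool → R → A → (R → A) → ℝ) :
    E5 (fun φ t r j h => c * f φ t r j h) = c * E5 f := by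
  simp only [E5, E3_mul_left, E_mul_left]

omit [DecidableEq A] [Nonempty A] [Nonempty R] in
lemma E5_mono {f g : Bool → Bool → R → A → (R → A) → ℝ}
    (hh : ∀ φ t r j h, f φ t r j h ≤ g φ t r j h) : E5 f ≤ E5 g :=
  E_mono fun φ => E_mono fun t => E3_mono (hh φ t)

omit [DecidableEq A] [Nonempty A] [Nonempty R] in
lemma E5_sum {ι : Type} [Fintype ι] (f : ι → Bool → Bool → R → A → (R → A) → ℝ) :
    E5 (fun φ t r j h => ∑ i, f i φ t r j h) = ∑ i, E5 (f i) := by
  simp only [E5, E3_sum, E_sum]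

omit [DecidableEq A] in
lemma E5_const (c : ℝ) : E5 (fun (_ _ : Bool) (_ : R) (_ : A) (_ : R → A) => c) = c := by
  simp only [E5, E3_const, E_const]

omit [DecidableEq A] [Nonempty A] in
lemma E5_le {f : Bool → Bool → R → A → (R → A) → ℝ} {c : ℝ}
    (hh : ∀ φ t r, E (fun j => E fun h => f φ t r j h) ≤ c) : E5 f ≤ c :=
  E_le fun φ => E_le fun t => E_le fun r => hh φ t r

/-- The guess made from Bob's weights. -/
def E2 (β : Bool × (R → A) → ℝ) (Λ : ℝ) : Bool → Bool → (R → A) → Prop
  | true, t, h => ¬DD β Λ (!t) h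
  | false, t, h => DD β Λ t h

/-- The reference density. -/
noncomputable def QQ (α : (Bool → A) × Option Bool → ℝ) (β : Bool × (R → A) → ℝ) (c : A)
    (θ Θ Λ : ℝ) (φ t : Bool) (r : R) (j : A) (h : R → A) : ℝ :=
  (1 - 4 * θ) * (2 * Fintype.card A) * (ind (h r = c) * ind (E2 β Λ φ t h)) +
  θ * ((Fintype.card A * ind (h r = c) + Fintype.card A * Θ * ind (h r ≠ c)) +
    (Fintype.card A * (α (xx false t c j) / abar α c t * ind (h r = c)) +
    Fintype.card A * (β (t, h) / bbar β c t r * ind (h r = c))))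

omit [Nonempty R] in
lemma E_ind_coord (r : R) (c : A) : E (fun h : R → A => ind (h r = c)) = 1 / Fintype.card A := by
  simp only [ind_eq_ite]
  rw [E_cond r c (fun _ => 1), E_const]

lemma Q_avg (α : (Bool → A) × Option Bool → ℝ) (β : Bool × (R → A) → ℝ) (c : A)
    (θ Θ Λ : ℝ) (hα : ∀ x, 0 ≤ α x) (hβ : ∀ y, 0 ≤ β y) (hθ : 0 ≤ θ) (hθ' : 4 * θ ≤ 1)
    (hΘ : 0 ≤ Θ) (hM : Fintype.card A * Θ * (4 * (Fintype.card R / Fintype.card A) ^ 2) ≤ 1)
    (hc : ∀ φ t r, E (fun j : A => E fun h : R → A =>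
      ind (h r ≠ c ∧ α (xx φ t (h r) j) * β (t, h) ≠ 0)) ≤
        4 * (Fintype.card R / Fintype.card A) ^ 2) :
    E5 (fun φ t r j h => QQ α β c θ Θ Λ φ t r j h * ind (α (xx φ t (h r) j) * β (t, h) ≠ 0)) ≤
      1 := by
  have hA : (0 : ℝ) < Fintype.card A := by exact_mod_cast Fintype.card_pos
  have pt : ∀ φ t r j h, QQ α β c θ Θ Λ φ t r j h * ind (α (xx φ t (h r) j) * β (t, h) ≠ 0) ≤
      (1 - 4 * θ) * (2 * Fintype.card A) * (ind (h r = c) * ind (E2 β Λ φ t h)) +
      θ * ((Fintype.card A * ind (h r = c) +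
        Fintype.card A * Θ * ind (h r ≠ c ∧ α (xx φ t (h r) j) * β (t, h) ≠ 0)) +
      (Fintype.card A * (α (xx false t c j) / abar α c t * ind (h r = c)) +
      Fintype.card A * (β (t, h) / bbar β c t r * ind (h r = c)))) := by
    intro φ t r j h
    have ha0 : 0 ≤ abar α c t := E_nonneg fun j => hα _
    have hb0 : 0 ≤ bbar β c t r := E_nonneg fun j => hβ _
    by_cases hp : α (xx φ t (h r) j) * β (t, h) ≠ 0
    · rw [ind_and, ind_pos hp, mul_one, mul_one]; rfl
    · rw [ind_neg hp, mul_zero]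
      have := ind_nonneg (h r = c)
      have := ind_nonneg (E2 β Λ φ t h)
      have := ind_nonneg (h r ≠ c ∧ α (xx φ t (h r) j) * β (t, h) ≠ 0)
      have := hα (xx false t c j)
      have := hβ (t, h)
      have : 0 ≤ 1 - 4 * θ := by linarith
      positivity
  refine (E5_mono pt).trans ?_
  simp only [E5_add, E5_mul_left]
  have t1 : E5 (fun φ t (r : R) (_ : A) h => ind (h r = c) * ind (E2 β Λ φ t h)) =
      1 / (2 * Fintype.card A) := by
    unfold E5
    rw [E_bool]
    simp only [E2]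
    rw [E_not (fun t => E3 fun (r : R) (_ : A) h => ind (h r = c) * ind (¬DD β Λ t h)), ← E_add]
    simp only [← E3_add, ind_not]
    have : ∀ t, E3 (fun (r : R) (_ : A) h => ind (h r = c) * ind (DD β Λ t h) +
        ind (h r = c) * (1 - ind (DD β Λ t h))) = 1 / Fintype.card A := by
      intro t
      have : (fun (r : R) (_ : A) h => ind (h r = c) * ind (DD β Λ t h) +
        ind (h r = c) * (1 - ind (DD β Λ t h))) = fun r _ h => ind (h r = c) := by
        funext r j h; ring
      rw [this]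
      simp only [E3, E_ind_coord, E_const]
    simp only [this, E_const]
    field_simp
  have t2 : E5 (fun (_ _ : Bool) (r : R) (_ : A) h => ind (h r = c)) ≤ 1 / Fintype.card A :=
    E5_le fun φ t r => by simp only [E_ind_coord, E_const, le_refl]
  have t3 := E5_le hc
  have t4 : E5 (fun (_ t : Bool) (r : R) (j : A) h =>
      α (xx false t c j) / abar α c t * ind (h r = c)) ≤ 1 / Fintype.card A :=
    E5_le fun φ t r => by
      simp only [E_mul_left, E_ind_coord, E_mul_right, E_div]
      exact div_le_div_of_nonneg_right (div_self_le_one (abar α c t)) hA.le |>.trans' (by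
        unfold abar; rw [mul_one_div])
  have t5 : E5 (fun (_ t : Bool) (r : R) (_ : A) h =>
      β (t, h) / bbar β c t r * ind (h r = c)) ≤ 1 / Fintype.card A :=
    E5_le fun φ t r => by
      rw [E_const]
      have : (fun h : R → A => β (t, h) / bbar β c t r * ind (h r = c)) =
          fun h => if h r = c then β (t, h) / bbar β c t r else 0 := by
        funext h; rw [ind_eq_ite]; split_ifs <;> simp
      rw [this, E_cond r c (fun h => β (t, h) / bbar β c t r), E_div]
      exact div_le_div_of_nonneg_right (div_self_le_one (bbar β c t r)) hA.le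
  have u2 := mul_le_mul_of_nonneg_left t2 hA.le
  have u3 := mul_le_mul_of_nonneg_left t3 (mul_nonneg hA.le hΘ)
  have u4 := mul_le_mul_of_nonneg_left t4 hA.le
  have u5 := mul_le_mul_of_nonneg_left t5 hA.le
  have e : (Fintype.card A : ℝ) * (1 / Fintype.card A) = 1 := by field_simp
  rw [t1]
  have e' : (1 - 4 * θ) * (2 * (Fintype.card A : ℝ)) * (1 / (2 * Fintype.card A)) = 1 - 4 * θ := by
    field_simp
  rw [e']
  rw [e] at u2 u4 u5
  nlinarith

omit [Nonempty R] in
lemma Q_log (α : (Bool → A) × Option Bool → ℝ) (β : Bool × (R → A) → ℝ) (c : A)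
    (θ Θ Λ : ℝ) (hα : ∀ x, 0 ≤ α x) (hβ : ∀ y, 0 ≤ β y) (hθ : 0 < θ) (hθ' : 4 * θ < 1)
    (hΘ : Θ = Real.exp ((Λ + 1) * Real.log (2 / θ))) (φ t : Bool) (r : R) (j : A) (h : R → A) :
    0 < QQ α β c θ Θ Λ φ t r j h ∧
    Real.log ((1 - 4 * θ) * (2 * Fintype.card A)) +
      Λ * Real.log (2 / θ) * ind (Bad α β c Θ t r j h) -
      Real.log (2 / θ) * (ind (¬Bad α β c Θ t r j h) * ind (¬E2 β Λ φ t h)) ≤
      Real.log (QQ α β c θ Θ Λ φ t r j h) := by
  have hA : (0 : ℝ) < Fintype.card A := by exact_mod_cast Fintype.card_pos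
  have hΘ0 : 0 < Θ := hΘ ▸ Real.exp_pos _
  have ha0 : 0 ≤ abar α c t := E_nonneg fun j => hα _
  have hb0 : 0 ≤ bbar β c t r := E_nonneg fun j => hβ _
  have h4 : 0 < 1 - 4 * θ := by linarith
  have n1 : 0 ≤ (1 - 4 * θ) * (2 * Fintype.card A) * (ind (h r = c) * ind (E2 β Λ φ t h)) :=
    mul_nonneg (by positivity) (mul_nonneg (ind_nonneg _) (ind_nonneg _))
  have n2 : 0 ≤ Fintype.card A * ind (h r = c) := mul_nonneg hA.le (ind_nonneg _)
  have n3 : 0 ≤ Fintype.card A * Θ * ind (h r ≠ c) := mul_nonneg (by positivity) (ind_nonneg _)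
  have n4 : 0 ≤ Fintype.card A * (α (xx false t c j) / abar α c t * ind (h r = c)) :=
    mul_nonneg hA.le (mul_nonneg (div_nonneg (hα _) ha0) (ind_nonneg _))
  have n5 : 0 ≤ Fintype.card A * (β (t, h) / bbar β c t r * ind (h r = c)) :=
    mul_nonneg hA.le (mul_nonneg (div_nonneg (hβ _) hb0) (ind_nonneg _))
  have hL : Real.log ((1 - 4 * θ) * (2 * Fintype.card A)) ≤
      Real.log (θ * Fintype.card A) + Real.log (2 / θ) := by
    rw [← Real.log_mul (by positivity) (by positivity)]
    apply Real.log_le_log (by positivity)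
    have : θ * Fintype.card A * (2 / θ) = 2 * Fintype.card A := by field_simp
    rw [this]
    nlinarith
  by_cases hB : Bad α β c Θ t r j h
  · rw [ind_pos hB, ind_neg (not_not.2 hB)]
    have hQ : θ * (Fintype.card A * Θ) ≤ QQ α β c θ Θ Λ φ t r j h := by
      have : Fintype.card A * Θ ≤ (Fintype.card A * ind (h r = c) +
          Fintype.card A * Θ * ind (h r ≠ c)) +
          (Fintype.card A * (α (xx false t c j) / abar α c t * ind (h r = c)) +
          Fintype.card A * (β (t, h) / bbar β c t r * ind (h r = c))) := by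
        by_cases hc : h r = c
        · rcases hB with hB | hB | hB
          · exact absurd hc hB
          · have hp : 0 < α (xx false t c j) := lt_of_le_of_lt (by positivity) hB
            have hp' : 0 < abar α c t := E_pos (f := fun j => α (xx false t c j))
              (fun j => hα _) hp
            have : Θ ≤ α (xx false t c j) / abar α c t := by
              rw [le_div_iff₀ hp']; exact hB.le
            rw [ind_pos hc, mul_one] at *
            nlinarith
          · have hp : 0 < β (t, h) := lt_of_le_of_lt (by positivity) hB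
            have hp' : 0 < bbar β c t r := E_pos
              (f := fun h : R → A => β (t, Function.update h r c)) (fun j => hβ _) (t := h)
              (by rw [← hc, Function.update_eq_self]; exact hp)
            have : Θ ≤ β (t, h) / bbar β c t r := by
              rw [le_div_iff₀ hp']; exact hB.le
            rw [ind_pos hc, mul_one] at *
            nlinarith
        · rw [ind_pos (show h r ≠ c from hc)] at *
          linarith
      have := mul_le_mul_of_nonneg_left this hθ.le
      unfold QQ; linarith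
    have hpos : 0 < θ * (Fintype.card A * Θ) := by positivity
    refine ⟨hpos.trans_le hQ, le_trans ?_ (Real.log_le_log hpos hQ)⟩
    have hlog : Real.log Θ = (Λ + 1) * Real.log (2 / θ) := by rw [hΘ, Real.log_exp]
    rw [← mul_assoc θ, Real.log_mul (x := θ * Fintype.card A) (by positivity) hΘ0.ne', hlog]
    linarith
  · have hc : h r = c := by
      by_contra hc; exact hB (Or.inl hc)
    rw [ind_neg hB, ind_pos hB]
    by_cases hE : E2 β Λ φ t h
    · rw [ind_neg (not_not.2 hE)]
      have hQ : (1 - 4 * θ) * (2 * Fintype.card A) ≤ QQ α β c θ Θ Λ φ t r j h := by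
        unfold QQ
        rw [ind_pos hE]
        rw [ind_pos hc] at *
        nlinarith
      have hpos : 0 < (1 - 4 * θ) * (2 * (Fintype.card A : ℝ)) := by positivity
      refine ⟨hpos.trans_le hQ, le_trans ?_ (Real.log_le_log hpos hQ)⟩
      linarith
    · rw [ind_pos hE]
      have hQ : θ * Fintype.card A ≤ QQ α β c θ Θ Λ φ t r j h := by
        unfold QQ
        rw [ind_pos hc] at *
        nlinarith
      have hpos : 0 < θ * (Fintype.card A : ℝ) := by positivity
      refine ⟨hpos.trans_le hQ, le_trans ?_ (Real.log_le_log hpos hQ)⟩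
      linarith

theorem static_lower {ι : Type} [Fintype ι] (α : ι → (Bool → A) × Option Bool → ℝ)
    (β : ι → Bool × (R → A) → ℝ) (hα : ∀ π x, 0 ≤ α π x) (hβ : ∀ π y, 0 ≤ β π y)
    (hsum : ∀ x y, ∑ π, α π x * β π y = 1)
    (hmono : ∀ π x y x' y', α π x * β π y ≠ 0 → α π x' * β π y' ≠ 0 → FF x y → FF x' y')
    (P : ι → ℝ) (hP0 : ∀ π, 0 ≤ P π) (hP : ∑ π, P π ≤ 1)
    (hpos : ∀ π x y, α π x * β π y ≠ 0 → 0 < P π)
    (θ Θ Λ σ : ℝ) (hθ : 0 < θ) (hθ' : 4 * θ < 1) (hΛ : 0 < Λ)
    (hΘ : Θ = Real.exp ((Λ + 1) * Real.log (2 / θ))) (hσ : 0 < σ) (hs : σ ^ 2 ≤ Fintype.card R)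
    (hM : Fintype.card A * Θ * (4 * (Fintype.card R / Fintype.card A) ^ 2) ≤ 1) :
    Real.log ((1 - 4 * θ) * (2 * Fintype.card A)) - Real.log (2 / θ) *
      ((Λ * (1 / Fintype.card R + 1 / Fintype.card A) + (Λ + 1) * (Θ ^ 2 / σ) + 1 / Λ) / 2) ≤
    ∑ π, E5 (fun φ t r j h => α π (xx φ t (h r) j) * β π (t, h) *
      Real.log (α π (xx φ t (h r) j) * β π (t, h) / P π)) := by
  have hΘ0 : 0 < Θ := hΘ ▸ Real.exp_pos _
  have hcert : ∀ π, ∃ c : A, ∀ φ t r, E (fun j : A => E fun h : R → A =>
      ind (h r ≠ c ∧ α π (xx φ t (h r) j) * β π (t, h) ≠ 0)) ≤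
        4 * (Fintype.card R / Fintype.card A) ^ 2 := by
    intro π
    by_cases h1 : ∃ x y, α π x * β π y ≠ 0 ∧ FF x y
    · obtain ⟨x0, y0, h0, hF⟩ := h1
      obtain ⟨c, hc⟩ := exists_cert (fun g => ∃ w, α π (g, w) ≠ 0)
        (fun h : R → A => ∃ t, β π (t, h) ≠ 0) (by
          rintro g h ⟨w, hw⟩ ⟨t, ht⟩
          exact hmono π x0 y0 (g, w) (t, h) h0 (mul_ne_zero hw ht) hF)
      refine ⟨c, fun φ t r => le_trans (E_mono fun j => E_mono fun h => ind_mono ?_) (hc t r)⟩
      rintro ⟨h1, h2⟩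
      exact ⟨h1, ⟨_, left_ne_zero_of_mul h2⟩, ⟨_, right_ne_zero_of_mul h2⟩⟩
    · refine ⟨Classical.arbitrary A, fun φ t r => ?_⟩
      have : ∀ (j : A) (h : R → A),
          ind (h r ≠ Classical.arbitrary A ∧ α π (xx φ t (h r) j) * β π (t, h) ≠ 0) = 0 :=
        fun j h => ind_neg fun h' => h1 ⟨_, _, h'.2, t, r, by simp [xx, gg]⟩
      simp only [this, E_zero]
      positivity
  choose c hc using hcert
  set L0 := Real.log ((1 - 4 * θ) * (2 * Fintype.card A)) with hL0
  set l := Real.log (2 / θ) with hl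
  have hl0 : 0 ≤ l := Real.log_nonneg (by rw [le_div_iff₀ hθ]; linarith)
  have per : ∀ π, (L0 + 1) * E5 (fun φ t r j h => α π (xx φ t (h r) j) * β π (t, h)) +
      Λ * l * E5 (fun φ t r j h => α π (xx φ t (h r) j) * β π (t, h) *
        ind (Bad (α π) (β π) (c π) Θ t r j h)) -
      l * E5 (fun φ t r j h => α π (xx φ t (h r) j) * β π (t, h) *
        (ind (¬Bad (α π) (β π) (c π) Θ t r j h) * ind (¬E2 (β π) Λ φ t h))) - P π ≤
      E5 (fun φ t r j h => α π (xx φ t (h r) j) * β π (t, h) *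
        Real.log (α π (xx φ t (h r) j) * β π (t, h) / P π)) := by
    intro π
    have hq := mul_le_mul_of_nonneg_left
      (Q_avg (α π) (β π) (c π) θ Θ Λ (hα π) (hβ π) hθ.le hθ'.le hΘ0.le hM (hc π)) (hP0 π)
    rw [← E5_mul_left] at hq
    refine le_trans ?_ (E5_mono (f := fun φ t r j h =>
      (L0 + 1) * (α π (xx φ t (h r) j) * β π (t, h)) +
      Λ * l * (α π (xx φ t (h r) j) * β π (t, h) * ind (Bad (α π) (β π) (c π) Θ t r j h)) -
      l * (α π (xx φ t (h r) j) * β π (t, h) *
        (ind (¬Bad (α π) (β π) (c π) Θ t r j h) * ind (¬E2 (β π) Λ φ t h))) -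
      P π * (QQ (α π) (β π) (c π) θ Θ Λ φ t r j h *
        ind (α π (xx φ t (h r) j) * β π (t, h) ≠ 0))) ?_)
    · rw [E5_sub, E5_sub, E5_add, E5_mul_left, E5_mul_left, E5_mul_left]
      linarith
    · intro φ t r j h
      obtain ⟨q1, q2⟩ := Q_log (α π) (β π) (c π) θ Θ Λ (hα π) (hβ π) hθ hθ' hΘ φ t r j h
      have p0 := mul_nonneg (hα π (xx φ t (h r) j)) (hβ π (t, h))
      have g := gibbs_pt p0 (hpos π _ _) q1
      have := mul_le_mul_of_nonneg_left q2 p0
      linarith
  have s1 := sum_le_sum (s := univ) fun π _ => per π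
  refine le_trans ?_ s1
  simp only [sum_sub_distrib, sum_add_distrib, ← mul_sum]
  have hT : ∑ π, E5 (fun φ t r j (h : R → A) => α π (xx φ t (h r) j) * β π (t, h)) = 1 := by
    rw [← E5_sum]; simp only [hsum]; exact E5_const _
  rw [hT]
  have hbad : E (fun t => ∑ π, E3 (fun r j h => α π (xx false t (h r) j) * β π (t, h) *
        ind (Bad (α π) (β π) (c π) Θ t r j h))) / 2 ≤
      ∑ π, E5 (fun φ t r j h => α π (xx φ t (h r) j) * β π (t, h) *
        ind (Bad (α π) (β π) (c π) Θ t r j h)) := by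
    rw [E_sum, sum_div]
    refine sum_le_sum fun π _ => ?_
    unfold E5
    rw [E_bool (fun φ => E fun t => E3 _)]
    have : 0 ≤ E fun t => E3 fun r j h => α π (xx true t (h r) j) * β π (t, h) *
        ind (Bad (α π) (β π) (c π) Θ t r j h) :=
      E_nonneg fun t => E3_nonneg fun r j h =>
        mul_nonneg (mul_nonneg (hα _ _) (hβ _ _)) (ind_nonneg _)
    linarith
  have he2 : ∑ π, E5 (fun φ t r j h => α π (xx φ t (h r) j) * β π (t, h) *
        (ind (¬Bad (α π) (β π) (c π) Θ t r j h) * ind (¬E2 (β π) Λ φ t h))) ≤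
      (Λ * E (fun t => ∑ π, E3 (fun r j h => α π (xx false t (h r) j) * β π (t, h) *
        ind (Bad (α π) (β π) (c π) Θ t r j h))) +
      (Λ * (1 / Fintype.card R + 1 / Fintype.card A) + (Λ + 1) * (Θ ^ 2 / σ)) + 1 / Λ) / 2 := by
    unfold E5
    rw [← E_sum, E_bool (fun φ => ∑ π, E fun t => E3 _)]
    apply div_le_div_of_nonneg_right _ zero_le_two
    apply add_le_add
    · rw [← E_sum, ← E_not (fun t => ∑ π, E3 (fun r j h => α π (xx false t (h r) j) * β π (t, h) *
        ind (Bad (α π) (β π) (c π) Θ t r j h))), ← E_mul_left, ← E_const (T := Bool)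
        (Λ * (1 / Fintype.card R + 1 / Fintype.card A) + (Λ + 1) * (Θ ^ 2 / σ)), ← E_add]
      exact E_mono fun t => count_notD α β c Θ Λ σ hα hβ hsum hΘ0.le hΛ.le hσ hs t
    · rw [← E_sum]
      refine E_le fun t => ?_
      have : ∑ π, E3 (fun r j (h : R → A) =>
          1 / Λ * (α π (xx true t (h r) j) * β π (!t, h))) = 1 / Λ := by
        rw [← E3_sum]; simp only [← mul_sum, hsum, mul_one]; exact E3_const _
      rw [← this]
      refine sum_le_sum fun π _ => E3_mono fun r j h => ?_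
      have h1 : β π (t, h) * ind (¬E2 (β π) Λ true t h) ≤ 1 / Λ * β π (!t, h) := by
        by_cases hD : DD (β π) Λ (!t) h
        · rw [ind_pos (by simpa [E2] using hD), mul_one, one_div, ← div_eq_inv_mul,
            le_div_iff₀ hΛ]
          unfold DD at hD
          rw [Bool.not_not] at hD
          linarith
        · rw [ind_neg (by simpa [E2] using hD), mul_zero]
          exact mul_nonneg (by positivity) (hβ _ _)
      have h2 := mul_le_mul_of_nonneg_left h1 (hα π (xx true t (h r) j))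
      have h3 := mul_le_mul_of_nonneg_left (ind_le_one (¬Bad (α π) (β π) (c π) Θ t r j h))
        (mul_nonneg (mul_nonneg (hα π (xx true t (h r) j)) (hβ π (t, h)))
          (ind_nonneg (¬E2 (β π) Λ true t h)))
      linarith
  have u1 := mul_le_mul_of_nonneg_left hbad (mul_nonneg hΛ.le hl0)
  have u2 := mul_le_mul_of_nonneg_left he2 hl0
  linarith

end

end H739IC
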