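import Pool.Agent.H739Z.IC.Upper
import Pool.Agent.H739Z.IC.Lower

/-! The separation. -/

namespace H739IC

open Finset Filter

lemma exists_code (T : Type) [Fintype T] [Nonempty T] (N : ℕ) (h : Fintype.card T ≤ 2 ^ N) :
    ∃ (e : T → Fin N → Bool) (d : (Fin N → Bool) → T), ∀ t, d (e t) = t := by
  obtain ⟨e⟩ : Nonempty (T ↪ (Fin N → Bool)) :=
    Function.Embedding.nonempty_of_card_le (by simpa using h)
  exact ⟨e, Function.invFun e, Function.leftInverse_invFun e.injective⟩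

lemma list_sum_fin {T : Type} (L : List T) (f : T → ℝ) :
    (L.map f).sum = ∑ i : Fin L.length, f (L.get i) := by
  conv_lhs => rw [← List.ofFn_get L]
  rw [List.map_ofFn, List.sum_ofFn]; rfl

section
variable {A R U V : Type} [Fintype A] [Fintype R] [DecidableEq R] [DecidableEq A] [Nonempty A]
  [Nonempty R] [Fintype U] [Fintype V]

/-- The planted distribution on encoded inputs. -/
noncomputable def mu0 (eX : (Bool → A) × Option Bool → U) (eY : Bool × (R → A) → V)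
    (u : U) (v : V) : ℝ :=
  E5 fun φ t r j h => ind (eX (xx φ t (h r) j) = u) * ind (eY (t, h) = v)

omit [DecidableEq A] [Nonempty A] [Nonempty R] in
lemma sum_mu0 (eX : (Bool → A) × Option Bool → U) (eY : Bool × (R → A) → V) (f : U → V → ℝ) :
    ∑ u, ∑ v, mu0 eX eY u v * f u v =
      E5 fun φ t r j h => f (eX (xx φ t (h r) j)) (eY (t, h)) := by
  classical
  have : ∀ u v, mu0 eX eY u v * f u v = E5 fun φ t r j h =>
      f u v * (ind (eX (xx φ t (h r) j) = u) * ind (eY (t, h) = v)) := by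
    intro u v; rw [E5_mul_left, mul_comm]; rfl
  simp only [this, ← E5_sum]
  congr 1; funext φ t r j h
  simp [ind_eq_ite]

omit [DecidableEq A] [Nonempty A] [Nonempty R] [Fintype U] [Fintype V] in
lemma mu0_nonneg (eX : (Bool → A) × Option Bool → U) (eY : Bool × (R → A) → V) (u : U) (v : V) :
    0 ≤ mu0 eX eY u v :=
  E_nonneg fun _ => E_nonneg fun _ => E3_nonneg fun _ _ _ =>
    mul_nonneg (ind_nonneg _) (ind_nonneg _)

/-- The full-support distribution. -/
noncomputable def mu (eX : (Bool → A) × Option Bool → U) (eY : Bool × (R → A) → V) (ε : ℝ)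
    (u : U) (v : V) : ℝ :=
  (1 - ε) * mu0 eX eY u v + ε * (1 / (Fintype.card U * Fintype.card V))

omit [DecidableEq A] [Nonempty A] [Nonempty R] in
lemma sum_mu (eX : (Bool → A) × Option Bool → U) (eY : Bool × (R → A) → V) (ε : ℝ)
    (f : U → V → ℝ) :
    ∑ u, ∑ v, mu eX eY ε u v * f u v =
      (1 - ε) * (E5 fun φ t r j h => f (eX (xx φ t (h r) j)) (eY (t, h))) +
        ε * E fun u => E fun v => f u v := by
  rw [← sum_mu0]
  simp only [mu, add_mul, sum_add_distrib, mul_assoc, ← mul_sum, E, ← sum_div]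
  ring

omit [DecidableEq A] [Nonempty A] [Nonempty R] in
lemma mu_pos [Nonempty U] [Nonempty V] (eX : (Bool → A) × Option Bool → U)
    (eY : Bool × (R → A) → V) {ε : ℝ} (h0 : 0 < ε) (h1 : ε ≤ 1) (u : U) (v : V) :
    0 < mu eX eY ε u v := by
  have hU : (0 : ℝ) < Fintype.card U := by exact_mod_cast Fintype.card_pos
  have hV : (0 : ℝ) < Fintype.card V := by exact_mod_cast Fintype.card_pos
  exact add_pos_of_nonneg_of_pos (mul_nonneg (sub_nonneg.2 h1) (mu0_nonneg _ _ _ _))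
    (by positivity)

omit [DecidableEq A] in
lemma mu_total [Nonempty U] [Nonempty V] (eX : (Bool → A) × Option Bool → U)
    (eY : Bool × (R → A) → V) (ε : ℝ) : ∑ u, ∑ v, mu eX eY ε u v = 1 := by
  have := sum_mu eX eY ε fun _ _ => 1
  simp only [mul_one, E5_const, E_const] at this
  rw [this]; ring

theorem info_lower [Nonempty U] [Nonempty V] (eX : (Bool → A) × Option Bool → U)
    (eY : Bool × (R → A) → V) (dX : U → (Bool → A) × Option Bool) (dY : V → Bool × (R → A))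
    (hX : ∀ x, dX (eX x) = x) (hY : ∀ y, dY (eY y) = y) {ε : ℝ} (h0 : 0 < ε) (h1 : ε ≤ 1)
    (θ Θ Λ σ : ℝ) (hθ : 0 < θ) (hθ' : 4 * θ < 1) (hΛ : 0 < Λ)
    (hΘ : Θ = Real.exp ((Λ + 1) * Real.log (2 / θ))) (hσ : 0 < σ) (hs : σ ^ 2 ≤ Fintype.card R)
    (hM : Fintype.card A * Θ * (4 * (Fintype.card R / Fintype.card A) ^ 2) ≤ 1)
    (P : Prot U V Bool) (hP : ZeroError (FB dX dY) P) :
    (1 - ε) * (Real.log ((1 - 4 * θ) * (2 * Fintype.card A)) - Real.log (2 / θ) *
      ((Λ * (1 / Fintype.card R + 1 / Fintype.card A) + (Λ + 1) * (Θ ^ 2 / σ) + 1 / Λ) / 2)) ≤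
    extInfo (mu eX eY ε) P * Real.log 2 := by
  have hr := fun π : Fin P.paths.length => paths_rank P (P.paths.get π) (List.get_mem _ _)
  choose α β hα hβ hpr using hr
  have hsum : ∀ x y, ∑ π, α π x * β π y = 1 := by
    intro x y
    rw [← paths_sum P x y, list_sum_fin]
    simp only [hpr]
  set Pr : Fin P.paths.length → ℝ := fun π => ∑ x, ∑ y, mu eX eY ε x y * (α π x * β π y) with hPr
  have hmu := mu_pos eX eY h0 h1
  have hP0 : ∀ π, 0 ≤ Pr π := fun π => sum_nonneg fun x _ => sum_nonneg fun y _ =>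
    mul_nonneg (hmu x y).le (mul_nonneg (hα _ _) (hβ _ _))
  have hP1 : ∑ π, Pr π = 1 := by
    simp only [hPr]
    rw [← W_sum]
    simp only [hsum, mul_one]
    exact mu_total _ _ _
  have hpos : ∀ π x y, α π x * β π y ≠ 0 → 0 < Pr π := by
    intro π x y h
    refine sum_pos' (fun x _ => sum_nonneg fun y _ =>
      mul_nonneg (hmu x y).le (mul_nonneg (hα _ _) (hβ _ _))) ⟨x, mem_univ _, ?_⟩
    refine sum_pos' (fun y _ => mul_nonneg (hmu x y).le (mul_nonneg (hα _ _) (hβ _ _)))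
      ⟨y, mem_univ _, mul_pos (hmu x y) (lt_of_le_of_ne (mul_nonneg (hα _ _) (hβ _ _)) h.symm)⟩
  have hl2 : Real.log 2 ≠ 0 := (Real.log_pos one_lt_two).ne'
  have e1 : extInfo (mu eX eY ε) P * Real.log 2 =
      ∑ π, ∑ x, ∑ y, mu eX eY ε x y * (α π x * β π y * Real.log (α π x * β π y / Pr π)) := by
    unfold extInfo
    rw [list_sum_fin]
    simp only [hpr, sum_mul]
    refine sum_congr rfl fun π _ => sum_congr rfl fun x _ => sum_congr rfl fun y _ => ?_
    rw [Real.logb, mul_assoc, div_mul_cancel₀ _ hl2, mul_assoc]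
  rw [e1]
  simp only [sum_mu, sum_add_distrib, ← mul_sum]
  have s1 := static_lower (fun π x => α π (eX x)) (fun π y => β π (eY y)) (fun π x => hα _ _)
    (fun π y => hβ _ _) (fun x y => hsum _ _) (by
      intro π x y x' y' a b hF
      have a1 := hP _ (List.get_mem _ π) (eX x) (eY y) (by rw [hpr]; exact a)
      have b1 := hP _ (List.get_mem _ π) (eX x') (eY y') (by rw [hpr]; exact b)
      have := a1.symm.trans b1
      simp only [FB, hX, hY, decide_eq_decide] at this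
      exact this.1 hF) Pr hP0 hP1.le (fun π x y => hpos π _ _) θ Θ Λ σ hθ hθ' hΛ hΘ hσ hs hM
  have s2 : 0 ≤ ∑ π, E fun u => E fun v => α π u * β π v * Real.log (α π u * β π v / Pr π) := by
    simp only [← E_sum]
    refine E_nonneg fun u => E_nonneg fun v => ?_
    have : ∑ π, (α π u * β π v - Pr π) = 0 := by rw [sum_sub_distrib, hsum, hP1, sub_self]
    rw [← this]
    refine sum_le_sum fun π _ => ?_
    have g := gibbs_pt (mul_nonneg (hα π u) (hβ π v)) (hpos π u v) one_pos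
    have := mul_le_mul_of_nonneg_left (ind_le_one (α π u * β π v ≠ 0)) (hP0 π)
    rw [Real.log_one] at g
    linarith
  have := mul_le_mul_of_nonneg_left s1 (sub_nonneg.2 h1)
  have := mul_nonneg h0.le s2
  linarith

end

theorem main : ∃ (m : ℕ) (F : (Fin m → Bool) → (Fin m → Bool) → Bool)
    (μ : (Fin m → Bool) → (Fin m → Bool) → ℝ), 1 ≤ m ∧ (∀ x y, 0 < μ x y) ∧
    ∑ x, ∑ y, μ x y = 1 ∧ ∃ δ : ℝ, 0 < δ ∧
    ∀ᶠ n : ℕ in atTop, avgCC (powFun F n) (powDist μ n) / n ≤ ICext F μ - δ := by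
  obtain ⟨Θ, hΘ⟩ : ∃ Θ : ℝ, Θ = Real.exp ((2048 + 1) * Real.log (2 / (1 / 1024))) := ⟨_, rfl⟩
  have hΘ0 : 0 < Θ := hΘ ▸ Real.exp_pos _
  obtain ⟨σ, hσ⟩ := exists_nat_ge (2048 * 2049 * Θ ^ 2 + 4096)
  have hσ1 : (4096 : ℝ) ≤ σ := by nlinarith
  have hσ0 : (0 : ℝ) < σ := by linarith
  obtain ⟨m, hm⟩ := pow_unbounded_of_one_lt (4 * Θ * ((σ : ℝ) ^ 2) ^ 2 + 2 * 2048 ^ 2)
    (one_lt_two (α := ℝ))
  have hR : Nonempty (Fin (σ ^ 2)) := ⟨⟨0, pow_pos (by exact_mod_cast hσ0) 2⟩⟩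
  set N := Fintype.card ((Bool → Fin m → Bool) × Option Bool) +
    Fintype.card (Bool × (Fin (σ ^ 2) → Fin m → Bool)) + 1 with hN
  obtain ⟨eX, dX, hX⟩ := exists_code ((Bool → Fin m → Bool) × Option Bool) N
    (le_trans (by omega) (Nat.lt_two_pow_self (n := N)).le)
  obtain ⟨eY, dY, hY⟩ := exists_code (Bool × (Fin (σ ^ 2) → Fin m → Bool)) N
    (le_trans (by omega) (Nat.lt_two_pow_self (n := N)).le)
  have hN1 : 1 ≤ N := by omega
  clear_value N
  obtain ⟨ε, hε⟩ : ∃ ε : ℝ, ε = 1 / (1000 * (N + m + 1)) := ⟨_, rfl⟩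
  have hNm : (0 : ℝ) < N + m + 1 := by positivity
  have hε0 : 0 < ε := by rw [hε]; positivity
  have hε1 : ε * (N + m + 1) = 1 / 1000 := by rw [hε]; field_simp
  have hN0 : (0 : ℝ) ≤ N := Nat.cast_nonneg _
  have hm0 : (0 : ℝ) ≤ m := Nat.cast_nonneg _
  have hε2 : ε ≤ 1 / 1000 := by nlinarith
  have hε3 : ε * (N + 1) ≤ 1 / 1000 := by nlinarith
  have hε4 : ε * (m + 1) ≤ 1 / 1000 := by nlinarith
  have hmu := mu_pos eX eY hε0 (by linarith : ε ≤ 1)
  have htot := mu_total eX eY ε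
  refine ⟨N, FB dX dY, mu eX eY ε, hN1, hmu, htot, 1 / 100, by norm_num, ?_⟩
  have cA : (Fintype.card (Fin m → Bool) : ℝ) = 2 ^ m := by simp
  have cR : (Fintype.card (Fin (σ ^ 2)) : ℝ) = (σ : ℝ) ^ 2 := by simp
  have hM0 : (0 : ℝ) < 2 ^ m := by positivity
  have hl2 : (0.69 : ℝ) < Real.log 2 := lt_trans (by norm_num) Real.log_two_gt_d9
  have low : (m : ℝ) + 0.97 ≤ ICext (FB dX dY) (mu eX eY ε) := by
    apply le_csInf
    · obtain ⟨Q, hQ⟩ := ((Comp.sendA (Y := Fin N → Bool) fun x : Fin N → Bool => x).bind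
        fun x0 => Comp.bitB fun y => FB dX dY x0 y).exists_prot
      exact ⟨_, Q, hQ, rfl⟩
    rintro _ ⟨P, hP, rfl⟩
    have h := info_lower eX eY dX dY hX hY hε0 (by linarith) (1 / 1024) Θ 2048 σ (by norm_num)
      (by norm_num) (by norm_num) hΘ hσ0 cR.ge (by
        rw [cA, cR]
        have : 2 ^ m * Θ * (4 * ((σ : ℝ) ^ 2 / 2 ^ m) ^ 2) = 4 * Θ * ((σ : ℝ) ^ 2) ^ 2 / 2 ^ m := by
          field_simp
        rw [this, div_le_one hM0]
        nlinarith) P hP
    rw [cA, cR] at h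
    have a1 : Real.log (2 / (1 / 1024)) = 11 * Real.log 2 := by
      rw [show (2 / (1 / 1024) : ℝ) = 2 ^ 11 by norm_num, Real.log_pow]; norm_num
    have a2 : (m + 1) * Real.log 2 - 1 / 255 ≤ Real.log ((1 - 4 * (1 / 1024)) * (2 * 2 ^ m)) := by
      rw [Real.log_mul (by norm_num) (by positivity), ← pow_succ', Real.log_pow]
      have := Real.one_sub_inv_le_log_of_pos (x := 1 - 4 * (1 / 1024)) (by norm_num)
      push_cast
      norm_num at this ⊢
      linarith
    have a3 : 1 / (σ : ℝ) ^ 2 ≤ 1 / (2 * 2048 ^ 2) :=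
      one_div_le_one_div_of_le (by norm_num) (by nlinarith)
    have a4 : 1 / (2 : ℝ) ^ m ≤ 1 / (2 * 2048 ^ 2) :=
      one_div_le_one_div_of_le (by norm_num) (by
        have : 0 ≤ 4 * Θ * ((σ : ℝ) ^ 2) ^ 2 := by positivity
        linarith)
    have a5 : Θ ^ 2 / σ ≤ 1 / (2048 * 2049) := by
      rw [div_le_div_iff₀ hσ0 (by norm_num)]; nlinarith
    have a6 : (2048 * (1 / (σ : ℝ) ^ 2 + 1 / 2 ^ m) + (2048 + 1) * (Θ ^ 2 / σ) + 1 / 2048) / 2 ≤
        3 / 4096 := by
      norm_num at a3 a4 a5 ⊢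
      linarith
    rw [a1] at h
    have a7 := mul_le_mul_of_nonneg_left a6 (by positivity : 0 ≤ 11 * Real.log 2)
    have a8 : ((m : ℝ) + 0.98) * Real.log 2 ≤ Real.log ((1 - 4 * (1 / 1024)) * (2 * 2 ^ m)) -
        11 * Real.log 2 * ((2048 * (1 / (σ : ℝ) ^ 2 + 1 / 2 ^ m) + (2048 + 1) * (Θ ^ 2 / σ) +
          1 / 2048) / 2) := by nlinarith
    have a9 := mul_le_mul_of_nonneg_left a8 (by linarith : 0 ≤ 1 - ε)
    have a10 : ((m : ℝ) + 0.97) * Real.log 2 ≤ (1 - ε) * (((m : ℝ) + 0.98) * Real.log 2) := by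
      rw [← mul_assoc]
      apply mul_le_mul_of_nonneg_right _ (by linarith)
      nlinarith
    exact le_of_mul_le_mul_right (a10.trans (a9.trans h)) (by linarith)
  have up := upper dX dY (mu eX eY ε) (fun u v => (hmu u v).le) htot 0.501 ε (by
      rw [sum_mu]
      have b1 : E5 (fun φ t (r : Fin (σ ^ 2)) j h =>
          ind ((dX (eX (xx φ t (h r) j))).2 = none)) = 1 / 2 := by
        simp only [hX]
        unfold E5
        rw [E_bool]
        simp [xx, ind, E3_const, E_const]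
      have b2 : E (fun u => E fun _ : Fin N → Bool => ind ((dX u).2 = none)) ≤ 1 :=
        E_le fun u => E_le fun v => ind_le_one _
      rw [b1]
      nlinarith) (by
      rw [sum_mu]
      have b1 : E5 (fun φ t (r : Fin (σ ^ 2)) j h =>
          ind (¬Good (dX (eX (xx φ t (h r) j))) (dY (eY (t, h))))) = 0 := by
        have : ∀ φ t (r : Fin (σ ^ 2)) j (h : Fin (σ ^ 2) → Fin m → Bool),
            ind (¬Good (dX (eX (xx φ t (h r) j))) (dY (eY (t, h)))) = 0 := by
          intro φ t r j h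
          refine ind_neg (not_not.2 ?_)
          rw [hX, hY]
          exact ⟨by cases φ <;> simp [xx], r, by simp [xx, gg]⟩
        simp only [this, E5_const]
      have b2 : E (fun u => E fun v => ind (¬Good (dX u) (dY v))) ≤ 1 :=
        E_le fun u => E_le fun v => ind_le_one _
      rw [b1]
      nlinarith)
  obtain ⟨n0, hn0⟩ := exists_nat_ge (3000 * ((N : ℝ) + 1))
  filter_upwards [eventually_ge_atTop n0] with n hn
  have hn' : 3000 * ((N : ℝ) + 1) ≤ n := hn0.trans (by exact_mod_cast hn)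
  have hnpos : (0 : ℝ) < n := by linarith
  rw [div_le_iff₀ hnpos]
  refine (up n).trans ?_
  have c1 : ((n / 16 : ℕ) : ℝ) ≤ n / 16 := Nat.cast_div_le
  have c2 : 14 + 16 * (m : ℝ) + 16 * 0.501 ^ 4 + 256 * (N + 1) * ε ≤ 16 * (m + 0.955) := by
    norm_num at hε3 ⊢
    nlinarith
  have c3 : ((n / 16 : ℕ) : ℝ) * (14 + 16 * (m : ℝ) + 16 * 0.501 ^ 4 + 256 * (N + 1) * ε) ≤
      n / 16 * (16 * (m + 0.955)) :=
    mul_le_mul c1 c2 (by positivity) (by positivity)
  have c4 := mul_le_mul_of_nonneg_right low hnpos.le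
  nlinarith

end H739IC
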