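import Pool.Agent.H739Z.IC.Cert

/-! The double planting argument. -/

namespace H739IC

open Finset

/-- Triple average. -/
noncomputable def E3 {R B H : Type} [Fintype R] [Fintype B] [Fintype H] (f : R → B → H → ℝ) : ℝ :=
  E fun r => E fun j => E fun h => f r j h

section
variable {R B H ι : Type} [Fintype R] [Fintype B] [Fintype H] [Fintype ι]

lemma E3_add (f g : R → B → H → ℝ) : E3 (fun r j h => f r j h + g r j h) = E3 f + E3 g := by
  simp only [E3, E_add]

lemma E3_sub (f g : R → B → H → ℝ) : E3 (fun r j h => f r j h - g r j h) = E3 f - E3 g := by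
  simp only [E3, E_sub]

lemma E3_mul_left (c : ℝ) (f : R → B → H → ℝ) : E3 (fun r j h => c * f r j h) = c * E3 f := by
  simp only [E3, E_mul_left]

lemma E3_mono {f g : R → B → H → ℝ} (hh : ∀ r j h, f r j h ≤ g r j h) : E3 f ≤ E3 g :=
  E_mono fun r => E_mono fun j => E_mono fun h => hh r j h

lemma E3_nonneg {f : R → B → H → ℝ} (hh : ∀ r j h, 0 ≤ f r j h) : 0 ≤ E3 f :=
  E_nonneg fun r => E_nonneg fun j => E_nonneg fun h => hh r j h

lemma E3_sum (f : ι → R → B → H → ℝ) : E3 (fun r j h => ∑ i, f i r j h) = ∑ i, E3 (f i) := by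
  simp only [E3, E_sum]

lemma E3_const [Nonempty R] [Nonempty B] [Nonempty H] (c : ℝ) :
    E3 (fun (_ : R) (_ : B) (_ : H) => c) = c := by
  simp only [E3, E_const]

lemma E3_swap (f : R → B → H → ℝ) : E3 f = E3 (fun j r h => f r j h) := by
  simp only [E3]; rw [E_comm]

end

section
variable {A R : Type} [Fintype A] [Fintype R] [DecidableEq R] [DecidableEq A] [Nonempty A]
  [Nonempty R]

/-- Alice's weight averaged over the second element. -/
noncomputable def abar (α : (Bool → A) × Option Bool → ℝ) (c : A) (t : Bool) : ℝ :=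
  E fun j => α (xx false t c j)

/-- Bob's weight averaged over lists with `h r = c`. -/
noncomputable def bbar (β : Bool × (R → A) → ℝ) (c : A) (t : Bool) (r : R) : ℝ :=
  E fun h : R → A => β (t, Function.update h r c)

/-- The transcript is expensive at this input. -/
def Bad (α : (Bool → A) × Option Bool → ℝ) (β : Bool × (R → A) → ℝ) (c : A) (Θ : ℝ)
    (t : Bool) (r : R) (j : A) (h : R → A) : Prop :=
  h r ≠ c ∨ Θ * abar α c t < α (xx false t c j) ∨ Θ * bbar β c t r < β (t, h)

/-- Bob's weight points to `t`. -/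
def DD (β : Bool × (R → A) → ℝ) (Λ : ℝ) (t : Bool) (h : R → A) : Prop :=
  Λ * β (!t, h) < β (t, h)

lemma mix_pi (α : (Bool → A) × Option Bool → ℝ) (β : Bool × (R → A) → ℝ) (c : A) (Θ σ : ℝ)
    (hα : ∀ x, 0 ≤ α x) (hβ : ∀ y, 0 ≤ β y) (hΘ : 0 ≤ Θ) (hσ : 0 < σ)
    (hs : σ ^ 2 ≤ Fintype.card R) (t : Bool) (χ : (R → A) → ℝ) (hχ0 : ∀ h, 0 ≤ χ h)
    (hχ1 : ∀ h, χ h ≤ 1) :
    E3 (fun r j h => α (xx false t (h r) j) * β (t, h) * (ind (¬Bad α β c Θ t r j h) * χ h)) ≤
      E3 (fun r r' h => α (xx false t (h r) (h r')) * β (t, h) * (χ h * ind (h r = c))) +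
        Θ ^ 2 / σ * E3 (fun r j h => α (xx false t (h r) j) * β (t, h)) := by
  have hA : (0 : ℝ) < Fintype.card A := by exact_mod_cast Fintype.card_pos
  unfold E3
  rw [← E_mul_left, ← E_add]
  refine E_mono fun r => ?_
  have ha0 : 0 ≤ abar α c t := E_nonneg fun j => hα _
  have hb0 : 0 ≤ bbar β c t r := E_nonneg fun j => hβ _
  set f : A → ℝ := fun j => α (xx false t c j) * ind (α (xx false t c j) ≤ Θ * abar α c t) with hf
  set G : (R → A) → ℝ := fun h => β (t, h) * χ h * ind (β (t, h) ≤ Θ * bbar β c t r) with hG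
  have hf0 : ∀ a, 0 ≤ f a := fun a => mul_nonneg (hα _) (ind_nonneg _)
  have hf1 : ∀ a, f a ≤ Θ * abar α c t := fun a => by
    by_cases h : α (xx false t c a) ≤ Θ * abar α c t
    · simp only [hf, ind_pos h, mul_one]; exact h
    · simp only [hf, ind_neg h, mul_zero]; positivity
  have hf2 : ∀ a, f a ≤ α (xx false t c a) := fun a =>
    mul_le_of_le_one_right (hα _) (ind_le_one _)
  have hG0 : ∀ h, 0 ≤ G h := fun h => mul_nonneg (mul_nonneg (hβ _) (hχ0 _)) (ind_nonneg _)
  have hG2 : ∀ h, G h ≤ β (t, h) * χ h := fun h =>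
    mul_le_of_le_one_right (mul_nonneg (hβ _) (hχ0 _)) (ind_le_one _)
  have hG1 : ∀ h, G h ≤ Θ * bbar β c t r := fun h => by
    by_cases h' : β (t, h) ≤ Θ * bbar β c t r
    · exact (hG2 h).trans ((mul_le_of_le_one_right (hβ _) (hχ1 _)).trans h')
    · simp only [hG, ind_neg h', mul_zero]; positivity
  have hm := mixing r c f G _ _ σ hσ hs hf0 hf1 hG0 hG1
  have e1 : E (fun j => E fun h : R → A =>
      α (xx false t (h r) j) * β (t, h) * (ind (¬Bad α β c Θ t r j h) * χ h)) =
      E (fun h : R → A => if h r = c then G h * E f else 0) := by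
    rw [E_comm]
    congr 1; funext h
    split_ifs with hc
    · rw [← E_mul_left]
      congr 1; funext j
      have : ind (¬Bad α β c Θ t r j h) =
          ind (α (xx false t c j) ≤ Θ * abar α c t) * ind (β (t, h) ≤ Θ * bbar β c t r) := by
        rw [← ind_and]; congr 1; simp [Bad, hc]
      rw [this, hc]; simp only [hf, hG]; ring
    · have : ∀ j, ind (¬Bad α β c Θ t r j h) = 0 := fun j => ind_neg (by simp [Bad, hc])
      simp only [this, zero_mul, mul_zero, E_zero]
  have e2 : E (fun h : R → A => if h r = c then G h * E (fun r' => f (h r')) else 0) ≤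
      E (fun r' => E fun h : R → A =>
        α (xx false t (h r) (h r')) * β (t, h) * (χ h * ind (h r = c))) := by
    rw [E_comm]
    refine E_mono fun h => ?_
    split_ifs with hc
    · rw [← E_mul_left]
      refine E_mono fun r' => ?_
      rw [ind_pos hc, hc]
      have := mul_le_mul (hG2 h) (hf2 (h r')) (hf0 _) (mul_nonneg (hβ _) (hχ0 _))
      linarith
    · simp only [ind_neg hc, mul_zero, E_zero, le_refl]
  have e3 : abar α c t * bbar β c t r / Fintype.card A ≤
      E (fun j => E fun h : R → A => α (xx false t (h r) j) * β (t, h)) := by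
    have : abar α c t * bbar β c t r / Fintype.card A =
        E (fun j => E fun h : R → A => if h r = c then α (xx false t c j) * β (t, h) else 0) := by
      simp only [E_cond r c (fun h => α (xx false t c _) * β (t, h)), E_mul_left, E_div,
        E_mul_right]
      rfl
    rw [this]
    refine E_mono fun j => E_mono fun h => ?_
    split_ifs with hc
    · rw [hc]
    · exact mul_nonneg (hα _) (hβ _)
  rw [e1]
  have e4 : Θ * bbar β c t r * (Θ * abar α c t) / σ / Fintype.card A =
      Θ ^ 2 / σ * (abar α c t * bbar β c t r / Fintype.card A) := by ring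
  have e5 := mul_le_mul_of_nonneg_left e3 (by positivity : 0 ≤ Θ ^ 2 / σ)
  linarith

lemma E3_coll : E3 (fun (r r' : R) (h : R → A) => ind (h r = h r')) ≤
    1 / Fintype.card R + 1 / Fintype.card A := by
  have hA : (0 : ℝ) < Fintype.card A := by exact_mod_cast Fintype.card_pos
  unfold E3
  refine E_le fun r => ?_
  have : ∀ r', E (fun h : R → A => ind (h r = h r')) ≤
      (if r' = r then 1 else 0) + 1 / Fintype.card A := by
    intro r'
    split_ifs with hr
    · exact (E_le fun h => ind_le_one _).trans (le_add_of_nonneg_right (by positivity))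
    · rw [E_update r, zero_add]
      refine E_le fun h => le_of_eq ?_
      simp only [Function.update_self, Function.update_of_ne hr, ind_eq_ite]
      exact E_ite (h r') (fun _ => 1)
  refine (E_mono this).trans (le_of_eq ?_)
  rw [E_add, E_const, E_ite r (fun _ => 1)]

/-- The probability of a cheap transcript whose Bob side does not point to `t`. -/
lemma count_notD {ι : Type} [Fintype ι] (α : ι → (Bool → A) × Option Bool → ℝ)
    (β : ι → Bool × (R → A) → ℝ) (c : ι → A) (Θ Λ σ : ℝ)
    (hα : ∀ π x, 0 ≤ α π x) (hβ : ∀ π y, 0 ≤ β π y) (hsum : ∀ x y, ∑ π, α π x * β π y = 1)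
    (hΘ : 0 ≤ Θ) (hΛ : 0 ≤ Λ) (hσ : 0 < σ) (hs : σ ^ 2 ≤ Fintype.card R) (t : Bool) :
    ∑ π, E3 (fun r j h => α π (xx false t (h r) j) * β π (t, h) *
        (ind (¬Bad (α π) (β π) (c π) Θ t r j h) * ind (¬DD (β π) Λ t h))) ≤
      Λ * ∑ π, E3 (fun r j h => α π (xx false (!t) (h r) j) * β π (!t, h) *
        ind (Bad (α π) (β π) (c π) Θ (!t) r j h)) +
      (Λ * (1 / Fintype.card R + 1 / Fintype.card A) + (Λ + 1) * (Θ ^ 2 / σ)) := by
  have hT : ∀ t, ∑ π, E3 (fun r j (h : R → A) => α π (xx false t (h r) j) * β π (t, h)) = 1 := by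
    intro t
    rw [← E3_sum]; simp only [hsum]; exact E3_const _
  have hW : ∑ π, E3 (fun r r' (h : R → A) => α π (xx false t (h r) (h r')) * β π (!t, h)) = 1 := by
    rw [← E3_sum]; simp only [hsum]; exact E3_const _
  have hV : ∑ π, E3 (fun r r' (h : R → A) =>
      α π (xx false t (h r) (h r')) * β π (!t, h) * ind (h r = h r')) ≤
      1 / Fintype.card R + 1 / Fintype.card A := by
    rw [← E3_sum]; simp only [← sum_mul, hsum, one_mul]; exact E3_coll
  have m1 := fun π => mix_pi (α π) (β π) (c π) Θ σ (hα π) (hβ π) hΘ hσ hs t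
    (fun h => ind (¬DD (β π) Λ t h)) (fun h => ind_nonneg _) (fun h => ind_le_one _)
  have m2 := fun π => mix_pi (α π) (β π) (c π) Θ σ (hα π) (hβ π) hΘ hσ hs (!t)
    (fun _ => 1) (fun h => zero_le_one) (fun h => le_rfl)
  have s1 := sum_le_sum (s := univ) fun π _ => m1 π
  have s2 := sum_le_sum (s := univ) fun π _ => m2 π
  rw [sum_add_distrib, ← mul_sum, hT] at s1 s2
  have b1 : ∀ π, E3 (fun r r' (h : R → A) => α π (xx false t (h r) (h r')) * β π (t, h) *
      (ind (¬DD (β π) Λ t h) * ind (h r = c π))) ≤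
      Λ * E3 (fun r r' (h : R → A) => α π (xx false t (h r) (h r')) * β π (!t, h) *
        ind (h r = c π)) := by
    intro π
    rw [← E3_mul_left]
    refine E3_mono fun r r' h => ?_
    have h1 : β π (t, h) * ind (¬DD (β π) Λ t h) ≤ Λ * β π (!t, h) := by
      by_cases hD : DD (β π) Λ t h
      · rw [ind_neg (not_not.2 hD), mul_zero]; exact mul_nonneg hΛ (hβ _ _)
      · rw [ind_pos hD, mul_one]; exact not_lt.1 hD
    have h2 := mul_le_mul_of_nonneg_left h1
      (mul_nonneg (hα π (xx false t (h r) (h r'))) (ind_nonneg (h r = c π)))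
    linarith
  have b2 : ∀ π, E3 (fun r r' (h : R → A) => α π (xx false t (h r) (h r')) * β π (!t, h) *
        ind (h r = c π)) +
      E3 (fun r r' (h : R → A) => α π (xx false (!t) (h r) (h r')) * β π (!t, h) *
        (1 * ind (h r = c π))) ≤
      E3 (fun r r' (h : R → A) => α π (xx false t (h r) (h r')) * β π (!t, h)) +
      E3 (fun r r' (h : R → A) =>
        α π (xx false t (h r) (h r')) * β π (!t, h) * ind (h r = h r')) := by
    intro π
    rw [E3_swap (fun r r' (h : R → A) => α π (xx false (!t) (h r) (h r')) * β π (!t, h) *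
        (1 * ind (h r = c π))), ← E3_add, ← E3_add]
    refine E3_mono fun r r' h => ?_
    rw [xx_not]
    have h0 := mul_nonneg (hα π (xx false t (h r) (h r'))) (hβ π (!t, h))
    have h1 : ind (h r = c π) + ind (h r' = c π) ≤ 1 + ind (h r = h r') := by
      by_cases e1 : h r = c π
      · by_cases e2 : h r' = c π
        · rw [ind_pos e1, ind_pos e2, ind_pos (e1.trans e2.symm)]
        · rw [ind_pos e1, ind_neg e2]; linarith [ind_nonneg (h r = h r')]
      · rw [ind_neg e1]; linarith [ind_nonneg (h r = h r'), ind_le_one (h r' = c π)]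
    have h2 := mul_le_mul_of_nonneg_left h1 h0
    linarith
  have b3 : ∀ π, E3 (fun r j (h : R → A) => α π (xx false (!t) (h r) j) * β π (!t, h) *
        (ind (¬Bad (α π) (β π) (c π) Θ (!t) r j h) * 1)) =
      E3 (fun r j (h : R → A) => α π (xx false (!t) (h r) j) * β π (!t, h)) -
      E3 (fun r j h => α π (xx false (!t) (h r) j) * β π (!t, h) *
        ind (Bad (α π) (β π) (c π) Θ (!t) r j h)) := by
    intro π
    rw [← E3_sub]
    congr 1; funext r j h
    rw [ind_not]; ring
  have s3 := sum_le_sum (s := univ) fun π _ => b1 π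
  have s4 := sum_le_sum (s := univ) fun π _ => b2 π
  rw [← mul_sum] at s3
  rw [sum_add_distrib, sum_add_distrib, hW] at s4
  simp only [b3] at s2
  rw [sum_sub_distrib, hT] at s2
  have s5 : ∑ π, E3 (fun r r' (h : R → A) => α π (xx false t (h r) (h r')) * β π (!t, h) *
        ind (h r = c π)) ≤ ∑ π, E3 (fun r j h => α π (xx false (!t) (h r) j) * β π (!t, h) *
        ind (Bad (α π) (β π) (c π) Θ (!t) r j h)) +
        (1 / Fintype.card R + 1 / Fintype.card A) + Θ ^ 2 / σ := by linarith
  have s6 := mul_le_mul_of_nonneg_left s5 hΛ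
  linarith

end

end H739IC
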