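import Pool.Agent.H739Z.IC.Defs

/-! Structure of transcripts, and deterministic protocols. -/

namespace H739IC

open Finset

section
variable {X Y O : Type}

lemma paths_rank (P : Prot X Y O) : ∀ b ∈ P.paths, ∃ (α : X → ℝ) (β : Y → ℝ),
    (∀ x, 0 ≤ α x) ∧ (∀ y, 0 ≤ β y) ∧ ∀ x y, b.pr x y = α x * β y := by
  induction P with
  | leaf o =>
    intro b hb
    simp only [Prot.paths, List.mem_singleton] at hb
    subst hb
    exact ⟨fun _ => 1, fun _ => 1, fun _ => zero_le_one, fun _ => zero_le_one, fun _ _ => by simp⟩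
  | alice p l r ihl ihr =>
    intro b hb
    simp only [Prot.paths, List.mem_append, List.mem_map] at hb
    rcases hb with ⟨b', hb', rfl⟩ | ⟨b', hb', rfl⟩
    · obtain ⟨α, β, h1, h2, h3⟩ := ihl b' hb'
      exact ⟨fun x => p x * α x, β, fun x => mul_nonneg (p x).2.1 (h1 x), h2,
        fun x y => by simp [Path.step, h3, mul_assoc]⟩
    · obtain ⟨α, β, h1, h2, h3⟩ := ihr b' hb'
      exact ⟨fun x => (1 - p x) * α x, β, fun x => mul_nonneg (sub_nonneg.2 (p x).2.2) (h1 x), h2,
        fun x y => by simp [Path.step, h3, mul_assoc]⟩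
  | bob p l r ihl ihr =>
    intro b hb
    simp only [Prot.paths, List.mem_append, List.mem_map] at hb
    rcases hb with ⟨b', hb', rfl⟩ | ⟨b', hb', rfl⟩
    · obtain ⟨α, β, h1, h2, h3⟩ := ihl b' hb'
      exact ⟨α, fun y => p y * β y, h1, fun y => mul_nonneg (p y).2.1 (h2 y),
        fun x y => by simp [Path.step, h3, mul_left_comm]⟩
    · obtain ⟨α, β, h1, h2, h3⟩ := ihr b' hb'
      exact ⟨α, fun y => (1 - p y) * β y, h1, fun y => mul_nonneg (sub_nonneg.2 (p y).2.2) (h2 y),
        fun x y => by simp [Path.step, h3, mul_left_comm]⟩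
  | coin p l r ihl ihr =>
    intro b hb
    simp only [Prot.paths, List.mem_append, List.mem_map] at hb
    rcases hb with ⟨b', hb', rfl⟩ | ⟨b', hb', rfl⟩
    · obtain ⟨α, β, h1, h2, h3⟩ := ihl b' hb'
      exact ⟨fun x => p * α x, β, fun x => mul_nonneg p.2.1 (h1 x), h2,
        fun x y => by simp [Path.step, h3, mul_assoc]⟩
    · obtain ⟨α, β, h1, h2, h3⟩ := ihr b' hb'
      exact ⟨fun x => (1 - p) * α x, β, fun x => mul_nonneg (sub_nonneg.2 p.2.2) (h1 x), h2,
        fun x y => by simp [Path.step, h3, mul_assoc]⟩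

lemma sum_step (q : X → Y → ℝ) (k : ℕ) (L : List (Path X Y O)) (x : X) (y : Y) :
    ((L.map (Path.step q k)).map fun b => b.pr x y).sum = q x y * (L.map fun b => b.pr x y).sum := by
  rw [List.map_map, ← List.sum_map_mul_left]; rfl

lemma paths_sum (P : Prot X Y O) (x : X) (y : Y) : (P.paths.map fun b => b.pr x y).sum = 1 := by
  induction P with
  | leaf o => simp [Prot.paths]
  | alice p l r ihl ihr =>
    simp only [Prot.paths, List.map_append, List.sum_append, sum_step, ihl, ihr]; ring
  | bob p l r ihl ihr =>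
    simp only [Prot.paths, List.map_append, List.sum_append, sum_step, ihl, ihr]; ring
  | coin p l r ihl ihr =>
    simp only [Prot.paths, List.map_append, List.sum_append, sum_step, ihl, ihr]; ring

lemma sum_step_bits (q : X → Y → ℝ) (k : ℕ) (L : List (Path X Y O)) (x : X) (y : Y) :
    ((L.map (Path.step q k)).map fun b => b.pr x y * (b.bits : ℝ)).sum =
      q x y * ((L.map fun b => b.pr x y * (b.bits : ℝ)).sum +
        k * (L.map fun b => b.pr x y).sum) := by
  induction L with
  | nil => simp
  | cons b L ih =>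
    simp only [List.map_cons, List.sum_cons, ih]
    simp only [Path.step]
    push_cast; ring

end

/-- Deterministic protocols. -/
inductive DProt (X Y O : Type) : Type
  | leaf (o : O) : DProt X Y O
  | alice (f : X → Bool) (l r : DProt X Y O) : DProt X Y O
  | bob (f : Y → Bool) (l r : DProt X Y O) : DProt X Y O

section
variable {X Y O O' : Type}

/-- Output. -/
def DProt.run : DProt X Y O → X → Y → O
  | .leaf o, _, _ => o
  | .alice f l r, x, y => if f x then l.run x y else r.run x y
  | .bob f l r, x, y => if f y then l.run x y else r.run x y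

/-- Number of bits. -/
def DProt.cost : DProt X Y O → X → Y → ℕ
  | .leaf _, _, _ => 0
  | .alice f l r, x, y => (if f x then l.cost x y else r.cost x y) + 1
  | .bob f l r, x, y => (if f y then l.cost x y else r.cost x y) + 1

/-- As a randomised protocol. -/
def DProt.toProt : DProt X Y O → Prot X Y O
  | .leaf o => .leaf o
  | .alice f l r => .alice (fun x => if f x then 1 else 0) l.toProt r.toProt
  | .bob f l r => .bob (fun y => if f y then 1 else 0) l.toProt r.toProt

/-- Sequential composition. -/
def DProt.bind : DProt X Y O → (O → DProt X Y O') → DProt X Y O'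
  | .leaf o, g => g o
  | .alice f l r, g => .alice f (l.bind g) (r.bind g)
  | .bob f l r, g => .bob f (l.bind g) (r.bind g)

lemma DProt.run_bind (P : DProt X Y O) (g : O → DProt X Y O') (x : X) (y : Y) :
    (P.bind g).run x y = (g (P.run x y)).run x y := by
  induction P with
  | leaf o => rfl
  | alice f l r ihl ihr => simp only [DProt.bind, DProt.run]; split_ifs <;> assumption
  | bob f l r ihl ihr => simp only [DProt.bind, DProt.run]; split_ifs <;> assumption

lemma DProt.cost_bind (P : DProt X Y O) (g : O → DProt X Y O') (x : X) (y : Y) :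
    (P.bind g).cost x y = P.cost x y + (g (P.run x y)).cost x y := by
  induction P with
  | leaf o => simp [DProt.bind, DProt.run, DProt.cost]
  | alice f l r ihl ihr => simp only [DProt.bind, DProt.run, DProt.cost]; split_ifs <;> omega
  | bob f l r ihl ihr => simp only [DProt.bind, DProt.run, DProt.cost]; split_ifs <;> omega

lemma DProt.zeroError (P : DProt X Y O) : ZeroError P.run P.toProt := by
  induction P with
  | leaf o =>
    intro b hb x y _
    simp only [DProt.toProt, Prot.paths, List.mem_singleton] at hb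
    subst hb; rfl
  | alice f l r ihl ihr =>
    intro b hb x y h
    simp only [DProt.toProt, Prot.paths, List.mem_append, List.mem_map] at hb
    rcases hb with ⟨b', hb', rfl⟩ | ⟨b', hb', rfl⟩
    · have h1 := left_ne_zero_of_mul h
      have h2 := ihl b' hb' x y (right_ne_zero_of_mul h)
      by_cases hf : f x = true
      · simpa [DProt.run, hf, Path.step] using h2
      · simp [hf] at h1
    · have h1 := left_ne_zero_of_mul h
      have h2 := ihr b' hb' x y (right_ne_zero_of_mul h)
      by_cases hf : f x = true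
      · simp [hf] at h1
      · simpa [DProt.run, hf, Path.step] using h2
  | bob f l r ihl ihr =>
    intro b hb x y h
    simp only [DProt.toProt, Prot.paths, List.mem_append, List.mem_map] at hb
    rcases hb with ⟨b', hb', rfl⟩ | ⟨b', hb', rfl⟩
    · have h1 := left_ne_zero_of_mul h
      have h2 := ihl b' hb' x y (right_ne_zero_of_mul h)
      by_cases hf : f y = true
      · simpa [DProt.run, hf, Path.step] using h2
      · simp [hf] at h1
    · have h1 := left_ne_zero_of_mul h
      have h2 := ihr b' hb' x y (right_ne_zero_of_mul h)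
      by_cases hf : f y = true
      · simp [hf] at h1
      · simpa [DProt.run, hf, Path.step] using h2

lemma DProt.sum_bits (P : DProt X Y O) (x : X) (y : Y) :
    (P.toProt.paths.map fun b => b.pr x y * (b.bits : ℝ)).sum = P.cost x y := by
  induction P with
  | leaf o => simp [DProt.toProt, Prot.paths, DProt.cost]
  | alice f l r ihl ihr =>
    simp only [DProt.toProt, Prot.paths, List.map_append, List.sum_append, sum_step_bits, ihl, ihr,
      paths_sum, DProt.cost]
    by_cases hf : f x = true <;> simp [hf]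
  | bob f l r ihl ihr =>
    simp only [DProt.toProt, Prot.paths, List.map_append, List.sum_append, sum_step_bits, ihl, ihr,
      paths_sum, DProt.cost]
    by_cases hf : f y = true <;> simp [hf]

lemma expComm_eq [Fintype X] [Fintype Y] (μ : X → Y → ℝ) (P : Prot X Y O) :
    expComm μ P = ∑ x, ∑ y, μ x y * (P.paths.map fun b => b.pr x y * (b.bits : ℝ)).sum := by
  unfold expComm
  induction P.paths with
  | nil => simp
  | cons b L ih =>
    rw [List.map_cons, List.sum_cons, ih]
    simp only [List.map_cons, List.sum_cons, mul_add, sum_add_distrib, mul_assoc]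

/-- `f` is computed on all inputs by a protocol sending at most `c x y` bits on input `x, y`. -/
def Comp (f : X → Y → O) (c : X → Y → ℝ) : Prop :=
  ∃ P : DProt X Y O, (∀ x y, P.run x y = f x y) ∧ ∀ x y, (P.cost x y : ℝ) ≤ c x y

lemma Comp.mono {f f' : X → Y → O} {c c' : X → Y → ℝ} (h : Comp f c) (hf : ∀ x y, f x y = f' x y)
    (hc : ∀ x y, c x y ≤ c' x y) : Comp f' c' := by
  obtain ⟨P, h1, h2⟩ := h
  exact ⟨P, fun x y => (h1 x y).trans (hf x y), fun x y => (h2 x y).trans (hc x y)⟩

lemma Comp.pure (o : O) : Comp (fun (_ : X) (_ : Y) => o) (fun _ _ => 0) :=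
  ⟨.leaf o, fun _ _ => rfl, fun _ _ => by simp [DProt.cost]⟩

lemma Comp.bitA (f : X → Bool) : Comp (fun x (_ : Y) => f x) (fun _ _ => 1) :=
  ⟨.alice f (.leaf true) (.leaf false), fun x _ => by simp [DProt.run],
    fun _ _ => by simp [DProt.cost]⟩

lemma Comp.bitB (f : Y → Bool) : Comp (fun (_ : X) y => f y) (fun _ _ => 1) :=
  ⟨.bob f (.leaf true) (.leaf false), fun x _ => by simp [DProt.run],
    fun _ _ => by simp [DProt.cost]⟩

lemma Comp.bind {f : X → Y → O} {c : X → Y → ℝ} {g : O → X → Y → O'} {d : O → X → Y → ℝ}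
    (h : Comp f c) (hg : ∀ o, Comp (g o) (d o)) :
    Comp (fun x y => g (f x y) x y) (fun x y => c x y + d (f x y) x y) := by
  obtain ⟨P, h1, h2⟩ := h
  choose Q q1 q2 using hg
  refine ⟨P.bind Q, fun x y => ?_, fun x y => ?_⟩
  · rw [DProt.run_bind, h1, q1]
  · rw [DProt.cost_bind, h1]; push_cast; exact add_le_add (h2 x y) (q2 _ x y)

lemma Comp.map {f : X → Y → O} {c : X → Y → ℝ} (h : Comp f c) (g : O → O') :
    Comp (fun x y => g (f x y)) c :=
  (h.bind (g := fun o _ _ => g o) fun o => Comp.pure (g o)).mono (fun _ _ => rfl)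
    (fun _ _ => by simp)

lemma Comp.pi {ι : Type} [Fintype ι] [Nonempty O] {f : ι → X → Y → O} {c : ι → X → Y → ℝ}
    (h : ∀ i, Comp (f i) (c i)) : Comp (fun x y i => f i x y) (fun x y => ∑ i, c i x y) := by
  classical
  have o : O := Classical.arbitrary O
  have key : ∀ s : Finset ι, Comp (fun x y i => if i ∈ s then f i x y else o)
      (fun x y => ∑ i ∈ s, c i x y) := by
    intro s
    induction s using Finset.induction_on with
    | empty => exact (Comp.pure fun _ => o).mono (fun _ _ => by simp) (fun _ _ => by simp)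
    | insert a s ha ih =>
      refine (ih.bind fun g => (h a).map fun v => Function.update g a v).mono ?_ ?_
      · intro x y; funext i
        by_cases hi : i = a
        · subst hi; simp
        · simp [hi]
      · intro x y; rw [sum_insert ha, add_comm]
  exact (key univ).mono (fun _ _ => by simp) (fun _ _ => le_rfl)

lemma Comp.sendA {ι : Type} [Fintype ι] (f : X → ι → Bool) :
    Comp (fun x (_ : Y) => f x) (fun _ _ => Fintype.card ι) :=
  (Comp.pi fun i => Comp.bitA (Y := Y) fun x => f x i).mono (fun _ _ => rfl) (fun _ _ => by simp)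

lemma Comp.sendB {ι : Type} [Fintype ι] (f : Y → ι → Bool) :
    Comp (fun (_ : X) y => f y) (fun _ _ => Fintype.card ι) :=
  (Comp.pi fun i => Comp.bitB (X := X) fun x => f x i).mono (fun _ _ => rfl) (fun _ _ => by simp)

lemma Comp.sendA2 {ι κ : Type} [Fintype ι] [Fintype κ] (f : X → ι → κ → Bool) :
    Comp (fun x (_ : Y) => f x) (fun _ _ => Fintype.card ι * Fintype.card κ) :=
  (Comp.pi fun i => Comp.sendA (Y := Y) fun x => f x i).mono (fun _ _ => rfl) (fun _ _ => by simp)

lemma Comp.ite {f g : X → Y → O} {c d : X → Y → ℝ} (b : Bool) (h : Comp f c) (h' : Comp g d) :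
    Comp (fun x y => if b then f x y else g x y) (fun x y => if b then c x y else d x y) := by
  cases b
  · simpa using h'
  · simpa using h

lemma Comp.exists_prot {f : X → Y → O} {c : X → Y → ℝ} (h : Comp f c) :
    ∃ P : Prot X Y O, ZeroError f P := by
  obtain ⟨P, h1, _⟩ := h
  have : P.run = f := funext fun x => funext fun y => h1 x y
  exact ⟨P.toProt, this ▸ P.zeroError⟩

lemma Comp.avgCC_le [Fintype X] [Fintype Y] {f : X → Y → O} {c : X → Y → ℝ} (h : Comp f c)
    (μ : X → Y → ℝ) (hμ : ∀ x y, 0 ≤ μ x y) : avgCC f μ ≤ ∑ x, ∑ y, μ x y * c x y := by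
  obtain ⟨P, h1, h2⟩ := h
  have : P.run = f := funext fun x => funext fun y => h1 x y
  have hb : BddBelow {c | ∃ P : Prot X Y O, ZeroError f P ∧ expComm μ P = c} := by
    refine ⟨0, ?_⟩
    rintro _ ⟨Q, _, rfl⟩
    rw [expComm_eq]
    refine sum_nonneg fun x _ => sum_nonneg fun y _ => mul_nonneg (hμ x y) (List.sum_nonneg ?_)
    intro v hv
    obtain ⟨b, hb, rfl⟩ := List.mem_map.1 hv
    obtain ⟨α, β, a1, a2, a3⟩ := paths_rank Q b hb
    rw [a3]
    exact mul_nonneg (mul_nonneg (a1 x) (a2 y)) (Nat.cast_nonneg _)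
  refine (csInf_le hb ⟨P.toProt, this ▸ P.zeroError, rfl⟩).trans ?_
  rw [expComm_eq]
  refine sum_le_sum fun x _ => sum_le_sum fun y _ => mul_le_mul_of_nonneg_left ?_ (hμ x y)
  rw [DProt.sum_bits]; exact h2 x y

end

end H739IC
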