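import Pool.Agent.H739Z.IC.Proto
import Pool.Agent.H739Z.IC.Cert

/-! The amortised protocol. -/

namespace H739IC

open Finset

/-- Alice's hint is consistent with Bob's pointer and the pointer is right. -/
def Good {A R : Type} (x : (Bool → A) × Option Bool) (y : Bool × (R → A)) : Prop :=
  (x.2 = none ∨ x.2 = some y.1) ∧ ∃ r, y.2 r = x.1 y.1

open Classical in
/-- The Boolean function on encoded inputs. -/
noncomputable def FB {A R U V : Type} (dX : U → (Bool → A) × Option Bool)
    (dY : V → Bool × (R → A)) (u : U) (v : V) : Bool :=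
  decide (FF (dX u) (dY v))

section
variable {R ι : Type} {m N : ℕ}

lemma comp_direct (F : (Fin N → Bool) → (Fin N → Bool) → Bool) {κ : Type} [Fintype κ] (e : κ → ι) :
    Comp (fun (x y : ι → Fin N → Bool) (k : κ) => F (x (e k)) (y (e k)))
      (fun _ _ => Fintype.card κ * (N + 1)) := by
  refine ((Comp.sendA2 (Y := ι → Fin N → Bool) fun (x : ι → Fin N → Bool) k => x (e k)).bind
    fun X0 => Comp.sendB fun (y : ι → Fin N → Bool) k => F (X0 k) (y (e k))).mono
    (fun _ _ => rfl) (fun _ _ => ?_)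
  simp only [Fintype.card_fin]; ring_nf; rfl

lemma comp_block (dX : (Fin N → Bool) → (Bool → Fin m → Bool) × Option Bool)
    (dY : (Fin N → Bool) → Bool × (R → Fin m → Bool)) (e : Fin 4 × Fin 4 → ι) :
    Comp (fun (x y : ι → Fin N → Bool) (k : Fin 4 × Fin 4) => FB dX dY (x (e k)) (y (e k)))
      (fun x y => 14 + 16 * m + 4 * ∑ a, ∏ c, ind ((dX (x (e (a, c)))).2 = none) +
        16 * (N + 1) * ∑ k, ind (¬Good (dX (x (e k))) (dY (y (e k))))) := by
  classical
  let tt : (ι → Fin N → Bool) → Fin 4 × Fin 4 → Bool := fun y k => (dY (y (e k))).1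
  let ww : (ι → Fin N → Bool) → Fin 4 × Fin 4 → Option Bool := fun x k => (dX (x (e k))).2
  have s1 : Comp (fun (_ y : ι → Fin N → Bool) (k : Fin 4 × Fin 4) => xor (tt y (k.1, 0)) (tt y k))
      (fun _ _ => 12) := by
    refine ((Comp.sendB (X := ι → Fin N → Bool) fun y (k : Fin 4 × Fin 3) =>
      xor (tt y (k.1, 0)) (tt y (k.1, k.2.succ))).map
      fun d (k : Fin 4 × Fin 4) => (Fin.cases false (fun c => d (k.1, c)) k.2 : Bool)).mono
      (fun x y => ?_) (fun _ _ => by simp)
    funext ⟨a, c⟩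
    refine Fin.cases ?_ (fun c => ?_) c <;> simp
  let flag : (ι → Fin N → Bool) → Bool := fun x => decide (∃ a, ∀ c, ww x (a, c) = none)
  let that : (Fin 4 × Fin 4 → Bool) → Bool → (Fin 4 → Bool) → (ι → Fin N → Bool) →
      Fin 4 × Fin 4 → Bool := fun D fl T0 x k =>
    xor (if fl then T0 k.1 else decide (∃ c b, ww x (k.1, c) = some b ∧ xor b (D (k.1, c)) = true))
      (D k)
  let okk : (Fin 4 × Fin 4 → Fin m → Bool) → (ι → Fin N → Bool) → Bool := fun I y =>
    decide (∀ k, ∃ r, (dY (y (e k))).2 r = I k)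
  have all := s1.bind fun D => (Comp.bitA (Y := ι → Fin N → Bool) flag).bind fun fl =>
    (Comp.ite fl (Comp.sendB (X := ι → Fin N → Bool) fun y (a : Fin 4) => tt y (a, 0))
      (Comp.pure fun _ => false)).bind fun T0 =>
    (Comp.sendA2 (Y := ι → Fin N → Bool) fun x k => (dX (x (e k))).1 (that D fl T0 x k)).bind
    fun I => (Comp.bitB (X := ι → Fin N → Bool) (okk I)).bind fun ok =>
    Comp.ite ok (Comp.pure fun _ => true) (comp_direct (FB dX dY) e)
  refine all.mono (fun x y => ?_) (fun x y => ?_)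
  · split_ifs with h1 h2 h3
    all_goals first
      | rfl
      | (funext k
         simp only [okk, decide_eq_true_eq] at *
         obtain ⟨r, hr⟩ := ‹∀ k, ∃ r, _› k
         symm
         simp only [FB, decide_eq_true_eq]
         exact ⟨_, r, hr⟩)
  · simp only [Fintype.card_prod, Fintype.card_fin]
    have n1 : ∀ a, 0 ≤ ∏ c, ind ((dX (x (e (a, c)))).2 = none) := fun a =>
      prod_nonneg fun c _ => ind_nonneg _
    have c1 : (if flag x = true then ((4 : ℕ) : ℝ) else 0) ≤
        4 * ∑ a, ∏ c, ind ((dX (x (e (a, c)))).2 = none) := by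
      split_ifs with h
      · simp only [flag, decide_eq_true_eq] at h
        obtain ⟨a, ha⟩ := h
        have h1 : ∏ c, ind ((dX (x (e (a, c)))).2 = none) = 1 :=
          prod_eq_one fun c _ => ind_pos (ha c)
        have h2 := single_le_sum (f := fun a => ∏ c, ind ((dX (x (e (a, c)))).2 = none))
          (fun a _ => n1 a) (mem_univ a)
        push_cast; linarith
      · exact mul_nonneg (by norm_num) (sum_nonneg fun a _ => n1 a)
    have c2 : ∀ b : Bool, ((∀ k, Good (dX (x (e k))) (dY (y (e k)))) → b = true) →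
        (if b = true then (0 : ℝ) else ((4 * 4 : ℕ) : ℝ) * (N + 1)) ≤
        16 * (N + 1) * ∑ k, ind (¬Good (dX (x (e k))) (dY (y (e k)))) := by
      intro b hb
      split_ifs with h
      · exact mul_nonneg (by positivity) (sum_nonneg fun a _ => ind_nonneg _)
      · have : ¬∀ k, Good (dX (x (e k))) (dY (y (e k))) := fun h' => h (hb h')
        obtain ⟨k, hk⟩ := not_forall.1 this
        have h2 := single_le_sum (f := fun k => ind (¬Good (dX (x (e k))) (dY (y (e k)))))
          (fun a _ => ind_nonneg _) (mem_univ k)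
        rw [ind_pos hk] at h2
        have := mul_le_mul_of_nonneg_left h2 (by positivity : (0 : ℝ) ≤ 16 * (N + 1))
        push_cast; linarith
    have c3 := c2 (okk (fun k => (dX (x (e k))).1 (that (fun k => xor (tt y (k.1, 0)) (tt y k))
      (flag x) (if flag x = true then fun a => tt y (a, 0) else fun _ => false) x k)) y) (by
      intro hg
      simp only [okk, decide_eq_true_eq]
      intro k
      have : that (fun k => xor (tt y (k.1, 0)) (tt y k))
          (flag x) (if flag x = true then fun a => tt y (a, 0) else fun _ => false) x k =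
          tt y k := by
        by_cases hf : flag x = true
        · simp [that, hf]
        · have hd : decide (∃ c b, ww x (k.1, c) = some b ∧
              xor b (xor (tt y (k.1, 0)) (tt y (k.1, c))) = true) = tt y (k.1, 0) := by
            have hw : ∀ c b, ww x (k.1, c) = some b → b = tt y (k.1, c) := by
              intro c b hb
              rcases (hg (k.1, c)).1 with h | h
              · exact absurd (hb.symm.trans h) (by simp)
              · exact Option.some.inj (hb.symm.trans h)
            simp only [flag, decide_eq_true_eq, not_exists, not_forall] at hf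
            obtain ⟨c, hc⟩ := hf k.1
            obtain ⟨b, hb⟩ := Option.ne_none_iff_exists'.1 hc
            rw [Bool.eq_iff_iff, decide_eq_true_eq]
            constructor
            · rintro ⟨c', b', h1, h2⟩
              rw [hw c' b' h1] at h2
              revert h2; cases tt y (k.1, 0) <;> cases tt y (k.1, c') <;> simp
            · intro h
              refine ⟨c, b, hb, ?_⟩
              rw [hw c b hb, h]; cases tt y (k.1, c) <;> simp
          simp only [that, hf, hd]
          simp
      rw [this]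
      exact (hg k).2)
    push_cast at *
    linarith

lemma sum_pow_prod {U V κ : Type} [Fintype U] [Fintype V] [Fintype κ] {n : ℕ} (μ : U → V → ℝ)
    (hμ : ∑ u, ∑ v, μ u v = 1) (g : κ → Fin n) (hg : Function.Injective g) (φ : U → V → ℝ) :
    ∑ x, ∑ y, powDist μ n x y * ∏ c, φ (x (g c)) (y (g c)) =
      (∑ u, ∑ v, μ u v * φ u v) ^ Fintype.card κ := by
  classical
  have e1 : ∀ (x : Fin n → U) (y : Fin n → V), powDist μ n x y * ∏ c, φ (x (g c)) (y (g c)) =
      ∏ i, μ (x i) (y i) * (if i ∈ univ.image g then φ (x i) (y i) else 1) := by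
    intro x y
    rw [prod_mul_distrib, prod_ite_mem, univ_inter, prod_image fun a _ b _ h => hg h]
    rfl
  simp only [e1]
  have e2 : ∀ x : Fin n → U, ∑ y : Fin n → V,
      ∏ i, μ (x i) (y i) * (if i ∈ univ.image g then φ (x i) (y i) else 1) =
      ∏ i, ∑ v, μ (x i) v * (if i ∈ univ.image g then φ (x i) v else 1) := by
    intro x
    rw [prod_univ_sum, Fintype.piFinset_univ]
  simp only [e2]
  rw [← Fintype.piFinset_univ, ← prod_univ_sum (fun _ => univ)
    (fun i u => ∑ v, μ u v * (if i ∈ univ.image g then φ u v else 1))]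
  have e3 : ∀ i : Fin n, ∑ u, ∑ v, μ u v * (if i ∈ univ.image g then φ u v else 1) =
      if i ∈ univ.image g then ∑ u, ∑ v, μ u v * φ u v else 1 := by
    intro i; split_ifs <;> simp [hμ]
  simp only [e3]
  rw [prod_ite_mem, univ_inter, prod_const, card_image_of_injective _ hg, card_univ]

lemma W_add {X Y : Type} [Fintype X] [Fintype Y] (w f g : X → Y → ℝ) :
    ∑ x, ∑ y, w x y * (f x y + g x y) = ∑ x, ∑ y, w x y * f x y + ∑ x, ∑ y, w x y * g x y := by
  simp only [mul_add, sum_add_distrib]

lemma W_mul {X Y : Type} [Fintype X] [Fintype Y] (w f : X → Y → ℝ) (c : ℝ) :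
    ∑ x, ∑ y, w x y * (c * f x y) = c * ∑ x, ∑ y, w x y * f x y := by
  simp only [mul_sum, mul_left_comm c]

lemma W_const {X Y : Type} [Fintype X] [Fintype Y] (w : X → Y → ℝ) (hw : ∑ x, ∑ y, w x y = 1)
    (c : ℝ) : ∑ x, ∑ y, w x y * c = c := by
  simp only [← sum_mul, hw, one_mul]

lemma W_sum {X Y κ : Type} [Fintype X] [Fintype Y] [Fintype κ] (w : X → Y → ℝ)
    (f : κ → X → Y → ℝ) :
    ∑ x, ∑ y, w x y * ∑ k, f k x y = ∑ k, ∑ x, ∑ y, w x y * f k x y := by
  simp only [mul_sum]
  rw [sum_congr rfl fun x _ => sum_comm, sum_comm]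

theorem upper (dX : (Fin N → Bool) → (Bool → Fin m → Bool) × Option Bool)
    (dY : (Fin N → Bool) → Bool × (R → Fin m → Bool))
    (μ : (Fin N → Bool) → (Fin N → Bool) → ℝ) (hμ0 : ∀ u v, 0 ≤ μ u v)
    (hμ : ∑ u, ∑ v, μ u v = 1) (p0 p1 : ℝ)
    (h0 : ∑ u, ∑ v, μ u v * ind ((dX u).2 = none) ≤ p0)
    (h1 : ∑ u, ∑ v, μ u v * ind (¬Good (dX u) (dY v)) ≤ p1) (n : ℕ) :
    avgCC (powFun (FB dX dY) n) (powDist μ n) ≤
      (n / 16 : ℕ) * (14 + 16 * m + 16 * p0 ^ 4 + 256 * (N + 1) * p1) + 15 * (N + 1) := by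
  classical
  let e : (Fin (n / 16) × (Fin 4 × Fin 4)) ⊕ Fin (n % 16) ≃ Fin n :=
    Fintype.equivOfCardEq (by simp; omega)
  have hb := Comp.pi fun b : Fin (n / 16) => comp_block dX dY fun k => e (Sum.inl (b, k))
  have hr := comp_direct (FB dX dY) fun k : Fin (n % 16) => e (Sum.inr k)
  have all := (hb.bind fun o1 => hr.map fun o2 (i : Fin n) =>
    Sum.elim (fun p : Fin (n / 16) × (Fin 4 × Fin 4) => o1 p.1 p.2) o2 (e.symm i)).mono
    (f' := powFun (FB dX dY) n) (fun x y => by
      funext i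
      obtain ⟨j, rfl⟩ := e.surjective i
      rw [e.symm_apply_apply]
      cases j <;> rfl) (fun x y => le_rfl)
  have hP0 : ∀ x y, 0 ≤ powDist μ n x y := fun x y => prod_nonneg fun i _ => hμ0 _ _
  refine (all.avgCC_le _ hP0).trans ?_
  have tot : ∑ x, ∑ y, powDist μ n x y = 1 := by
    have := sum_pow_prod (κ := Empty) μ hμ (n := n) Empty.elim (fun a => a.elim) (fun _ _ => 1)
    simpa using this
  have q0 : 0 ≤ ∑ u, ∑ v, μ u v * ind ((dX u).2 = none) :=
    sum_nonneg fun u _ => sum_nonneg fun v _ => mul_nonneg (hμ0 _ _) (ind_nonneg _)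
  have a1 : ∀ b a, ∑ x, ∑ y, powDist μ n x y *
      ∏ c, ind ((dX (x (e (Sum.inl (b, (a, c)))))).2 = none) ≤ p0 ^ 4 := by
    intro b a
    rw [sum_pow_prod μ hμ (fun c : Fin 4 => e (Sum.inl (b, (a, c))))
      (fun c c' h => by simpa using h) (fun u _ => ind ((dX u).2 = none)), Fintype.card_fin]
    exact pow_le_pow_left₀ q0 h0 4
  have a2 : ∀ i, ∑ x, ∑ y, powDist μ n x y * ind (¬Good (dX (x i)) (dY (y i))) ≤ p1 := by
    intro i
    have := sum_pow_prod μ hμ (fun _ : Unit => i) (fun c c' _ => rfl)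
      (fun u v => ind (¬Good (dX u) (dY v)))
    simp only [univ_unique, prod_singleton, Fintype.card_unique, pow_one] at this
    rw [this]; exact h1
  have blk : ∀ b : Fin (n / 16), ∑ x, ∑ y, powDist μ n x y * (14 + 16 * m +
      4 * ∑ a, ∏ c, ind ((dX (x (e (Sum.inl (b, (a, c)))))).2 = none) +
      16 * (N + 1) * ∑ k, ind (¬Good (dX (x (e (Sum.inl (b, k))))) (dY (y (e (Sum.inl (b, k))))))) ≤
      14 + 16 * m + 16 * p0 ^ 4 + 256 * (N + 1) * p1 := by
    intro b
    have s1 : ∑ x, ∑ y, powDist μ n x y *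
        ∑ a, ∏ c, ind ((dX (x (e (Sum.inl (b, (a, c)))))).2 = none) ≤ 4 * p0 ^ 4 := by
      rw [W_sum]
      refine (sum_le_sum fun a _ => a1 b a).trans (le_of_eq ?_)
      simp
    have s2 : ∑ x, ∑ y, powDist μ n x y *
        ∑ k, ind (¬Good (dX (x (e (Sum.inl (b, k))))) (dY (y (e (Sum.inl (b, k)))))) ≤ 16 * p1 := by
      rw [W_sum]
      refine (sum_le_sum fun k _ => a2 _).trans (le_of_eq ?_)
      simp
    have s3 := mul_le_mul_of_nonneg_left s2 (by positivity : (0 : ℝ) ≤ 16 * (N + 1))
    rw [W_add, W_add, W_const _ tot, W_mul, W_mul]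
    linarith
  rw [W_add, W_const _ tot]
  apply add_le_add
  · rw [W_sum]
    refine (sum_le_sum fun b _ => blk b).trans (le_of_eq ?_)
    rw [sum_const, card_univ, Fintype.card_fin, nsmul_eq_mul]
  · have : ((n % 16 : ℕ) : ℝ) ≤ 15 := by exact_mod_cast Nat.le_of_lt_succ (Nat.mod_lt n (by norm_num))
    rw [Fintype.card_fin]
    exact mul_le_mul_of_nonneg_right this (by positivity)

end

end H739IC
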